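import Mathlib

namespace Pool.Agent.BoxOrtho

open Set

/-- pairs (coordinate, value); a partial function is represented by its graph -/
abbrev Gr := Set (ℕ × ℕ)

def Func (X : Gr) : Prop := ∀ k c c', (k, c) ∈ X → (k, c') ∈ X → c = c'

/-- the finite message carried by a value -/
noncomputable def msg (c : ℕ) : Finset (ℕ × ℕ) :=
  ((Encodable.decode (Nat.unpair c).2 : Option (Finset (ℕ × ℕ)))).getD ∅

lemma exists_msg (s : Finset (ℕ × ℕ)) (B : ℕ) : ∃ c, B < c ∧ msg c = s := by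
  refine ⟨Nat.pair (B + 1) (Encodable.encode s), ?_, ?_⟩
  · exact lt_of_lt_of_le (Nat.lt_succ_self B) (Nat.left_le_pair _ _)
  · simp [msg, Nat.unpair_pair]

/-- code of one entry of the first factor -/
noncomputable def dec (n : ℕ) : ℕ × ℕ × Finset (ℕ × ℕ) :=
  ((Encodable.decode n : Option (ℕ × ℕ × Finset (ℕ × ℕ)))).getD (0, 0, ∅)

lemma exists_dec (x : ℕ × ℕ × Finset (ℕ × ℕ)) : ∃ n, dec n = x := by
  refine ⟨Encodable.encode x, ?_⟩
  simp [dec]

noncomputable def lf (f : ℕ → ℕ) (i : ℕ) : ℕ := (dec (f i)).1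
noncomputable def bf (f : ℕ → ℕ) (i : ℕ) : ℕ := (dec (f i)).2.1
noncomputable def Af (f : ℕ → ℕ) (i : ℕ) : Finset (ℕ × ℕ) := (dec (f i)).2.2

/-- evidence at index i -/
def EvA (f : ℕ → ℕ) (X : Gr) (i : ℕ) : Prop :=
  (∀ x ∈ Af f i, x ∈ X) ∧
    ∀ v, v ≤ i → ∃ k c, (k, c) ∈ Af f i ∧ i ≤ k ∧ (lf f i, v) ∈ msg c ∧
      ∀ x ∈ msg c, x ≠ (lf f i, v) → x ∈ Af f i

/-- legal change at index i -/
def Chg (f : ℕ → ℕ) (i : ℕ) : Prop :=
  (lf f (i + 1) = lf f i ∧ bf f (i + 1) = bf f i) ∨ ∃ v, v ≤ i ∧ (lf f i, v) ∈ Af f (i + 1)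

def Quiet (X : Gr) (β : ℕ) : Prop :=
  ∀ k c, (k, c) ∈ X → β ≤ k → (msg c).Nonempty → ¬ (∀ x ∈ msg c, x ∈ X)

def Ev (f : ℕ → ℕ) (X : Gr) (l β : ℕ) : Prop :=
  (∀ i, EvA f X i ∧ Chg f i) ∧ (∃ i0, ∀ i, i0 ≤ i → lf f i = l ∧ bf f i = β) ∧ Quiet X β

def Supp (f : ℕ → ℕ) (I : ℕ) (X : Gr) : Prop :=
  (∀ i, i < I → EvA f X i) ∧ (∀ i, i + 1 < I → Chg f i) ∧
    (∀ i, i + 1 = I → ∃ v, v ≤ i ∧ (lf f i, v) ∈ X)

lemma EvA.mono {f : ℕ → ℕ} {X Y : Gr} {i : ℕ} (h : EvA f X i) (hXY : X ⊆ Y) : EvA f Y i :=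
  ⟨fun x hx => hXY (h.1 x hx), h.2⟩

lemma Supp.mono {f : ℕ → ℕ} {X Y : Gr} {I : ℕ} (h : Supp f I X) (hXY : X ⊆ Y) : Supp f I Y := by
  refine ⟨fun i hi => (h.1 i hi).mono hXY, h.2.1, fun i hi => ?_⟩
  obtain ⟨v, hv, hm⟩ := h.2.2 i hi
  exact ⟨v, hv, hXY hm⟩

/-- message at k kills the value v at l -/
def Kill (X : Gr) (l v k : ℕ) : Prop :=
  ∃ c, (k, c) ∈ X ∧ (l, v) ∈ msg c ∧ ∀ x ∈ msg c, x ≠ (l, v) → x ∈ X

/-- construction of f from the kill property -/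
lemma exists_f {X : Gr} {l β : ℕ} (hK : ∀ v i, ∃ k, i ≤ k ∧ Kill X l v k) (hQ : Quiet X β)
    (f0 : ℕ → ℕ) (I : ℕ) (hS : Supp f0 I X) :
    ∃ f : ℕ → ℕ, (∀ i, i < I → f i = f0 i) ∧ Ev f X l β := by
  classical
  choose kk hk hkill using hK
  choose cc hcX hcm hcr using hkill
  -- evidence set at i
  let base : ℕ → Finset (ℕ × ℕ) := fun i =>
    (Finset.range (i + 1)).biUnion (fun v => insert (kk v i, cc v i) ((msg (cc v i)).erase (l, v)))
  have hbase : ∀ i, ∀ x ∈ base i, x ∈ X := by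
    intro i x hx
    simp only [base, Finset.mem_biUnion, Finset.mem_range, Finset.mem_insert,
      Finset.mem_erase] at hx
    obtain ⟨v, -, hx | ⟨hne, hx⟩⟩ := hx
    · rw [hx]; exact hcX v i
    · exact hcr v i x hx hne
  -- extra element
  obtain ⟨E, hEX, hE⟩ : ∃ E : Finset (ℕ × ℕ), (∀ x ∈ E, x ∈ X) ∧
      (∀ i, i + 1 = I → ∃ v, v ≤ i ∧ (lf f0 i, v) ∈ E) := by
    by_cases hI : ∃ i, i + 1 = I
    · obtain ⟨i, hi⟩ := hI
      obtain ⟨v, hv, hm⟩ := hS.2.2 i hi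
      refine ⟨{(lf f0 i, v)}, ?_, ?_⟩
      · intro x hx
        rw [Finset.mem_singleton] at hx
        rw [hx]; exact hm
      · intro i' hi'
        have : i' = i := by omega
        subst this
        exact ⟨v, hv, Finset.mem_singleton_self _⟩
    · refine ⟨∅, by simp, ?_⟩
      intro i hi
      exact absurd ⟨i, hi⟩ hI
  choose code hcode using exists_dec
  let f : ℕ → ℕ := fun i => if i < I then f0 i else code (l, β, base i ∪ E)
  have hfl : ∀ i, i < I → f i = f0 i := fun i hi => by simp [f, hi]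
  have hfg : ∀ i, ¬ i < I → dec (f i) = (l, β, base i ∪ E) := fun i hi => by
    simp only [f, hi, if_false]; exact hcode _
  have hlf : ∀ i, ¬ i < I → lf f i = l := fun i hi => by simp [lf, hfg i hi]
  have hbf : ∀ i, ¬ i < I → bf f i = β := fun i hi => by simp [bf, hfg i hi]
  have hAf : ∀ i, ¬ i < I → Af f i = base i ∪ E := fun i hi => by simp [Af, hfg i hi]
  have hlf0 : ∀ i, i < I → lf f i = lf f0 i := fun i hi => by simp [lf, hfl i hi]
  have hbf0 : ∀ i, i < I → bf f i = bf f0 i := fun i hi => by simp [bf, hfl i hi]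
  have hAf0 : ∀ i, i < I → Af f i = Af f0 i := fun i hi => by simp [Af, hfl i hi]
  refine ⟨f, hfl, ?_, ⟨I, fun i hi => ⟨hlf i (by omega), hbf i (by omega)⟩⟩, hQ⟩
  intro i
  by_cases hi : i < I
  · refine ⟨?_, ?_⟩
    · have h := hS.1 i hi
      unfold EvA
      rw [hAf0 i hi, hlf0 i hi]
      exact h
    · by_cases hi1 : i + 1 < I
      · have h := hS.2.1 i hi1
        unfold Chg
        rw [hlf0 _ hi1, hbf0 _ hi1, hAf0 _ hi1, hlf0 _ hi, hbf0 _ hi]
        exact h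
      · right
        obtain ⟨v, hv, hm⟩ := hE i (by omega)
        refine ⟨v, hv, ?_⟩
        rw [hAf _ hi1, hlf0 _ hi]
        exact Finset.mem_union_right _ hm
  · have hi1 : ¬ i + 1 < I := by omega
    refine ⟨⟨?_, ?_⟩, ?_⟩
    · intro x hx
      rw [hAf i hi, Finset.mem_union] at hx
      rcases hx with hx | hx
      · exact hbase i x hx
      · exact hEX x hx
    · intro v hv
      refine ⟨kk v i, cc v i, ?_, hk v i, ?_, ?_⟩
      · rw [hAf i hi]
        apply Finset.mem_union_left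
        simp only [base, Finset.mem_biUnion, Finset.mem_range]
        exact ⟨v, by omega, Finset.mem_insert_self _ _⟩
      · rw [hlf i hi]; exact hcm v i
      · intro x hx hne
        rw [hlf i hi] at hne
        rw [hAf i hi]
        apply Finset.mem_union_left
        simp only [base, Finset.mem_biUnion, Finset.mem_range]
        exact ⟨v, by omega, Finset.mem_insert_of_mem (Finset.mem_erase.mpr ⟨hne, hx⟩)⟩
    · left
      rw [hlf _ hi1, hbf _ hi1, hlf _ hi, hbf _ hi]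
      exact ⟨rfl, rfl⟩

end Pool.Agent.BoxOrtho
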