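import Pool.Agent.BoxOrtho.Basic

namespace Pool.Agent.BoxOrtho

open Set

structure Cond where
  Z : Set (ℕ × ℕ)
  G : ℕ → ℕ
  E : ℕ → Finset (ℕ × ℕ)
  κ : ℕ
  S : Set (ℕ × ℕ)

/-- T respects the interval [J.1, J.2) -/
def Resp (T : Gr) (J : ℕ × ℕ) : Prop :=
  ∀ k c, (k, c) ∈ T → (k < J.1 ∧ c ≤ J.1) ∨ J.2 ≤ k

structure Le (q p : Cond) : Prop where
  sub : p.Z ⊆ q.Z
  tail : ∀ k c, (k, c) ∈ q.Z → (k, c) ∉ p.Z →
    p.κ ≤ k ∧ p.G k < c ∧ (msg c = ∅ ∨ ∀ x ∈ p.E k, x ∈ msg c)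
  G_le : ∀ k, q.κ ≤ k → p.G k ≤ q.G k
  E_le : ∀ k, q.κ ≤ k → ∀ x ∈ p.E k, x ∈ q.E k
  κ_le : p.κ ≤ q.κ
  S_le : ∀ J, J ∈ q.S → ∃ J', J' ∈ p.S ∧ J.1 ≤ J'.1 ∧ J'.2 ≤ J.2 ∧
    Resp (q.Z \ p.Z) J'

lemma Le.refl (p : Cond) : Le p p where
  sub := subset_rfl
  tail := fun k c h1 h2 => absurd h1 h2
  G_le := fun k _ => le_rfl
  E_le := fun k _ x hx => hx
  κ_le := le_rfl
  S_le := fun J hJ => ⟨J, hJ, le_rfl, le_rfl, fun k c h => absurd h.1 h.2⟩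

lemma Le.trans {r q p : Cond} (h1 : Le r q) (h2 : Le q p) : Le r p where
  sub := h2.sub.trans h1.sub
  tail := by
    intro k c hr hp
    by_cases hq : (k, c) ∈ q.Z
    · exact h2.tail k c hq hp
    · obtain ⟨a, b, d⟩ := h1.tail k c hr hq
      have hk : q.κ ≤ k := a
      refine ⟨h2.κ_le.trans a, lt_of_le_of_lt (h2.G_le k hk) b, ?_⟩
      rcases d with d | d
      · exact Or.inl d
      · exact Or.inr (fun x hx => d x (h2.E_le k hk x hx))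
  G_le := fun k hk => (h2.G_le k (h1.κ_le.trans hk)).trans (h1.G_le k hk)
  E_le := fun k hk x hx => h1.E_le k hk x (h2.E_le k (h1.κ_le.trans hk) x hx)
  κ_le := h2.κ_le.trans h1.κ_le
  S_le := by
    intro J hJ
    obtain ⟨J', hJ', a1, a2, a3⟩ := h1.S_le J hJ
    obtain ⟨J'', hJ'', b1, b2, b3⟩ := h2.S_le J' hJ'
    refine ⟨J'', hJ'', a1.trans b1, b2.trans a2, ?_⟩
    intro k c hkc
    by_cases hq : (k, c) ∈ q.Z
    · exact b3 k c ⟨hq, hkc.2⟩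
    · rcases a3 k c ⟨hkc.1, hq⟩ with ⟨x, y⟩ | x
      · exact Or.inl ⟨lt_of_lt_of_le x b1, y.trans b1⟩
      · exact Or.inr (b2.trans x)

def InfS (S : Set (ℕ × ℕ)) : Prop := ∀ n, ∃ J, J ∈ S ∧ n ≤ J.1

def Free (p : Cond) : Prop :=
  ∀ J, J ∈ p.S → ∃ k, J.1 ≤ k ∧ k < J.2 ∧ ∀ c, (k, c) ∉ p.Z

lemma Free.le {q p : Cond} (h : Free p) (hle : Le q p) : Free q := by
  intro J hJ
  obtain ⟨J', hJ', a1, a2, a3⟩ := hle.S_le J hJ
  obtain ⟨k, hk1, hk2, hk3⟩ := h J' hJ'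
  refine ⟨k, a1.trans hk1, lt_of_lt_of_le hk2 a2, ?_⟩
  intro c hc
  rcases a3 k c ⟨hc, hk3 c⟩ with ⟨x, _⟩ | x
  · omega
  · omega

def Good (l : ℕ) (B : Finset ℕ) (ν : ℕ) (Z : Gr) (c : ℕ) : Prop :=
  msg c = ∅ ∨ (∃ w, w < ν ∧ (l, w) ∈ msg c) ∨
    ∃ e w z, e ∉ B ∧ e ≠ l ∧ (e, w) ∈ msg c ∧ (e, z) ∈ Z ∧ w ≠ z

lemma Good.mono {l : ℕ} {B : Finset ℕ} {ν ν' : ℕ} {Z Z' : Gr} {c : ℕ} (h : Good l B ν Z c)
    (hν : ν ≤ ν') (hZ : Z ⊆ Z') : Good l B ν' Z' c := by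
  rcases h with h | ⟨w, h1, h2⟩ | ⟨e, w, z, h1, h2, h3, h4, h5⟩
  · exact Or.inl h
  · exact Or.inr (Or.inl ⟨w, h1.trans_le hν, h2⟩)
  · exact Or.inr (Or.inr ⟨e, w, z, h1, h2, h3, hZ h4, h5⟩)

structure Hb (l : ℕ) (B : Finset ℕ) (Zs : Gr) (p : Cond) : Prop where
  func : Func p.Z
  inf : InfS p.S
  free : Free p
  nl : ∀ c, (l, c) ∉ p.Z
  E_sub : ∀ k, ∀ x ∈ p.E k, x ∈ p.Z ∧ x.1 ∉ B
  good : ∃ ν, ∀ k c, (k, c) ∈ p.Z → (k, c) ∉ Zs → Good l B ν p.Z c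

/-- good for the final object -/
def GoodInf (l : ℕ) (Zs : Gr) (Z : Gr) : Prop :=
  ∀ k c, (k, c) ∈ Z → (k, c) ∉ Zs → msg c = ∅ ∨ (∃ w, (l, w) ∈ msg c) ∨
    ∃ e w z, e ≠ l ∧ (e, w) ∈ msg c ∧ (e, z) ∈ Z ∧ w ≠ z

/-- outcome -/
structure Out (g : (ℕ → ℕ) → Gr → ℕ → ℕ) (l : ℕ) (Zs : Gr) (f0 : ℕ → ℕ) (I : ℕ)
    (a : Gr) (β N : ℕ) (p q : Cond) (f : ℕ → ℕ) : Prop where
  le : Le q p
  inf : InfS q.S
  nl : ∀ c, (l, c) ∉ q.Z
  func : Func (q.Z ∪ a)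
  agree : ∀ i, i < I → f i = f0 i
  ev : Ev f (q.Z ∪ a) l β
  goodInf : GoodInf l Zs q.Z
  bound : g f (q.Z ∪ a) l ≤ N

def Cert (g : (ℕ → ℕ) → Gr → ℕ → ℕ) (l : ℕ) (B : Finset ℕ) (Zs : Gr) (f0 : ℕ → ℕ) (I : ℕ)
    (a : Gr) (β N : ℕ) (p' : Cond) : Prop :=
  ∀ p, Le p p' → Hb l B Zs p → Func (p.Z ∪ a) → Supp f0 I (p.Z ∪ a) →
    ∃ q f, Out g l Zs f0 I a β N p q f

lemma Cert.le {g : (ℕ → ℕ) → Gr → ℕ → ℕ} {l : ℕ} {B : Finset ℕ} {Zs : Gr} {f0 : ℕ → ℕ} {I : ℕ}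
    {a : Gr} {β N : ℕ} {p' q' : Cond} (h : Cert g l B Zs f0 I a β N p') (hle : Le q' p') :
    Cert g l B Zs f0 I a β N q' :=
  fun p hp => h p (hp.trans hle)

/-- one step of the chain: add a killing message and reserve an interval -/
lemma chain_step {l : ℕ} {B : Finset ℕ} {Zs : Gr} {p : Cond} (hp : Hb l B Zs p) (v n : ℕ) :
    ∃ (p1 : Cond) (k c : ℕ) (J : ℕ × ℕ), Le p1 p ∧ Hb l B Zs p1 ∧ p1.Z = p.Z ∪ {(k, c)} ∧
      n ≤ k ∧ (l, v) ∈ msg c ∧ (∀ x ∈ msg c, x ≠ (l, v) → x ∈ p.Z) ∧ J ∈ p1.S ∧ J.2 ≤ p1.κ ∧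
      n ≤ J.1 := by
  classical
  obtain ⟨J0, hJ0, hJ0n⟩ := hp.inf (n + p.κ + l + 1)
  obtain ⟨k, hk1, hk2, hk3⟩ := hp.free J0 hJ0
  obtain ⟨c, hc1, hc2⟩ := exists_msg (insert (l, v) (p.E k)) (p.G k)
  let S1 : Set (ℕ × ℕ) := {J | J ∈ p.S ∧ k + c < J.1}
  have hinf : InfS S1 := by
    intro m
    obtain ⟨J, hJ, hJm⟩ := hp.inf (m + k + c + 1)
    exact ⟨J, ⟨hJ, by omega⟩, by omega⟩
  obtain ⟨J, hJ, hJn⟩ := hinf n
  let p1 : Cond := ⟨p.Z ∪ {(k, c)}, p.G, p.E, max p.κ J.2, S1⟩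
  have hle : Le p1 p := by
    refine ⟨subset_union_left, ?_, fun k _ => le_rfl, fun k _ x hx => hx, le_max_left _ _, ?_⟩
    · intro k' c' h1 h2
      have : (k', c') = (k, c) := by
        rcases h1 with h1 | h1
        · exact absurd h1 h2
        · exact h1
      obtain ⟨rfl, rfl⟩ := Prod.mk.inj this
      refine ⟨by omega, hc1, Or.inr ?_⟩
      intro x hx
      rw [hc2]; exact Finset.mem_insert_of_mem hx
    · intro J' hJ'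
      refine ⟨J', hJ'.1, le_rfl, le_rfl, ?_⟩
      intro k' c' h
      have : (k', c') = (k, c) := by
        rcases h.1 with h1 | h1
        · exact absurd h1 h.2
        · exact h1
      obtain ⟨rfl, rfl⟩ := Prod.mk.inj this
      left
      have := hJ'.2
      omega
  refine ⟨p1, k, c, J, hle, ?_, rfl, by omega, ?_, ?_, hJ, le_max_right _ _, hJn⟩
  · refine ⟨?_, hinf, hp.free.le hle, ?_, ?_, ?_⟩
    · intro k' c' c'' h1 h2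
      rcases h1 with h1 | h1 <;> rcases h2 with h2 | h2
      · exact hp.func k' c' c'' h1 h2
      · obtain ⟨rfl, rfl⟩ := Prod.mk.inj (show (k', c'') = (k, c) from h2)
        exact absurd h1 (hk3 _)
      · obtain ⟨rfl, rfl⟩ := Prod.mk.inj (show (k', c') = (k, c) from h1)
        exact absurd h2 (hk3 _)
      · have e1 := Prod.mk.inj (show (k', c') = (k, c) from h1)
        have e2 := Prod.mk.inj (show (k', c'') = (k, c) from h2)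
        rw [e1.2, e2.2]
    · intro c' h
      rcases h with h | h
      · exact hp.nl c' h
      · have := (Prod.mk.inj (show (l, c') = (k, c) from h)).1
        omega
    · intro k' x hx
      exact ⟨Or.inl (hp.E_sub k' x hx).1, (hp.E_sub k' x hx).2⟩
    · obtain ⟨ν, hν⟩ := hp.good
      refine ⟨max ν (v + 1), ?_⟩
      intro k' c' h1 h2
      rcases h1 with h1 | h1
      · exact (hν k' c' h1 h2).mono (le_max_left _ _) subset_union_left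
      · obtain ⟨rfl, rfl⟩ := Prod.mk.inj (show (k', c') = (k, c) from h1)
        refine Or.inr (Or.inl ⟨v, ?_, ?_⟩)
        · exact lt_of_lt_of_le (Nat.lt_succ_self v) (le_max_right _ _)
        · rw [hc2]; exact Finset.mem_insert_self _ _
  · rw [hc2]; exact Finset.mem_insert_self _ _
  · intro x hx hne
    rw [hc2, Finset.mem_insert] at hx
    rcases hx with hx | hx
    · exact absurd hx hne
    · exact (hp.E_sub k x hx).1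

end Pool.Agent.BoxOrtho
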