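import Mathlib

namespace Pool.Agent.BoxOrtho

/-- Every open cover has a point-finite open refinement. -/
def IsMetacompact (T : Type) [TopologicalSpace T] : Prop :=
  ∀ 𝒰 : Set (Set T), (∀ U ∈ 𝒰, IsOpen U) → ⋃₀ 𝒰 = Set.univ →
    ∃ 𝒱 : Set (Set T), (∀ V ∈ 𝒱, IsOpen V) ∧ ⋃₀ 𝒱 = Set.univ ∧
      (∀ V ∈ 𝒱, ∃ U ∈ 𝒰, V ⊆ U) ∧ ∀ x, {V | V ∈ 𝒱 ∧ x ∈ V}.Finite

/-- Every open cover has a σ-discrete closed refinement: a cover by closed sets, each inside a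
member of the given cover, that is a countable union of families F 0, F 1, ..., where every point
of the space has, for each n, an open neighbourhood that meets at most one member of F n. -/
def IsSubparacompact (T : Type) [TopologicalSpace T] : Prop :=
  ∀ 𝒰 : Set (Set T), (∀ U ∈ 𝒰, IsOpen U) → ⋃₀ 𝒰 = Set.univ →
    ∃ F : ℕ → Set (Set T), (∀ n, ∀ C ∈ F n, IsClosed C ∧ ∃ U ∈ 𝒰, C ⊆ U) ∧
      (∀ x, ∃ n, ∃ C ∈ F n, x ∈ C) ∧
      ∀ n, ∀ x : T, ∃ O : Set T, IsOpen O ∧ x ∈ O ∧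
        ∀ C ∈ F n, ∀ D ∈ F n, (C ∩ O).Nonempty → (D ∩ O).Nonempty → C = D

end Pool.Agent.BoxOrtho
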