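import Mathlib

namespace Pool.Agent.BoxOrtho

/-- The box product of a family of spaces: the set of all choice functions. -/
def Box {ι : Type} (X : ι → Type) : Type := ∀ i, X i

/-- The box topology: generated by all products of open sets. -/
instance boxTopology {ι : Type} (X : ι → Type) [∀ i, TopologicalSpace (X i)] :
    TopologicalSpace (Box X) :=
  TopologicalSpace.generateFrom
    {s | ∃ U : ∀ i, Set (X i), (∀ i, IsOpen (U i)) ∧ s = {x : Box X | ∀ i, x i ∈ U i}}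

/-- Every countable open cover has an interior-preserving open refinement. -/
def CountablyOrthocompact (T : Type) [TopologicalSpace T] : Prop :=
  ∀ 𝒰 : Set (Set T), 𝒰.Countable → (∀ U ∈ 𝒰, IsOpen U) → ⋃₀ 𝒰 = Set.univ →
    ∃ 𝒱 : Set (Set T), (∀ V ∈ 𝒱, IsOpen V) ∧ ⋃₀ 𝒱 = Set.univ ∧
      (∀ V ∈ 𝒱, ∃ U ∈ 𝒰, V ⊆ U) ∧ ∀ 𝒲, 𝒲 ⊆ 𝒱 → IsOpen (⋂₀ 𝒲)

end Pool.Agent.BoxOrtho
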