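import Pool.Agent.BoxOrtho.Top

namespace Pool.Agent.BoxOrtho

open Set TopologicalSpace Topology

lemma Ext.gr_sub {G : ℕ → ℕ} {x x' : W} (h : Ext G x x') : gr x ⊆ gr x' := by
  rintro ⟨k, c⟩ hkc
  have h1 : x k = (c : ℕ∞) := hkc
  show x' k = (c : ℕ∞)
  rw [(h k).1 (by rw [h1]; exact ENat.natCast_ne_top c), h1]

def E1 (n : ℕ) (f : ℕ → ℕ) (x : W) : Prop := ∃ l β, n ≤ l ∧ Ev f (gr x) l β

lemma Ev.l_eq {f : ℕ → ℕ} {X X' : Gr} {l β l' β' : ℕ} (h : Ev f X l β) (h' : Ev f X' l' β') :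
    l = l' ∧ β = β' := by
  obtain ⟨i0, hi0⟩ := h.2.1
  obtain ⟨i1, hi1⟩ := h'.2.1
  have a := hi0 (max i0 i1) (le_max_left _ _)
  have b := hi1 (max i0 i1) (le_max_right _ _)
  exact ⟨a.1.symm.trans b.1, a.2.symm.trans b.2⟩

/-- the sets are closed -/
lemma E1_closed {n : ℕ} {f : ℕ → ℕ} {x : W} (hne : ¬ E1 n f x) :
    ∃ (m : ℕ) (G : ℕ → ℕ), ∀ f' x', (∀ i, i < m → f' i = f i) → Ext G x x' → ¬ E1 n f' x' := by
  by_contra hcon
  push Not at hcon
  have hlf : ∀ (m : ℕ) (f' : ℕ → ℕ), (∀ i, i < m → f' i = f i) → ∀ i, i < m →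
      lf f' i = lf f i ∧ bf f' i = bf f i ∧ Af f' i = Af f i := by
    intro m f' h i hi
    simp [lf, bf, Af, h i hi]
  -- step 1
  have step1 : ∀ i, EvA f (gr x) i ∧ Chg f i := by
    intro i
    obtain ⟨f', x', h1, h2, l, β, hl, hev⟩ := hcon (i + 2) (fun _ => (Af f i).sup Prod.snd)
    have e0 := hlf _ f' h1 i (by omega)
    have e1 := hlf _ f' h1 (i + 1) (by omega)
    have hE := (hev.1 i).1
    have hC := (hev.1 i).2
    unfold EvA at hE
    unfold Chg at hC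
    rw [e0.1, e0.2.2] at hE
    rw [e1.1, e1.2.1, e1.2.2, e0.1, e0.2.1] at hC
    refine ⟨⟨?_, hE.2⟩, hC⟩
    rintro ⟨k, c⟩ hkc
    have h3 : x' k = (c : ℕ∞) := hE.1 _ hkc
    by_cases hk : x k = ⊤
    · have h4 := (h2 k).2 hk
      rw [h3] at h4
      have h5 : (Af f i).sup Prod.snd < c := by exact_mod_cast h4
      have h6 : c ≤ (Af f i).sup Prod.snd := Finset.le_sup (f := Prod.snd) hkc
      omega
    · have h4 := (h2 k).1 hk
      show x k = (c : ℕ∞)
      rw [← h4, h3]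
  by_cases hB : ∃ i0, ∀ i, i0 ≤ i → lf f (i + 1) = lf f i ∧ bf f (i + 1) = bf f i
  · obtain ⟨i0, hi0⟩ := hB
    have hconst : ∀ i, i0 ≤ i → lf f i = lf f i0 ∧ bf f i = bf f i0 := by
      intro i hi
      induction i, hi using Nat.le_induction with
      | base => exact ⟨rfl, rfl⟩
      | succ i hi ih =>
        have := hi0 i hi
        exact ⟨this.1.trans ih.1, this.2.trans ih.2⟩
    obtain ⟨f', x', h1, h2, l', β', hl', hev⟩ := hcon (i0 + 1) (fun _ => 0)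
    have e0 := hlf _ f' h1 i0 (by omega)
    have hsub := h2.gr_sub
    have hc' : ∀ i, i0 ≤ i → lf f' i = lf f i0 ∧ bf f' i = bf f i0 := by
      intro i hi
      induction i, hi using Nat.le_induction with
      | base => exact ⟨e0.1, e0.2.1⟩
      | succ i hi ih =>
        rcases (hev.1 i).2 with h3 | ⟨v, hv, h3⟩
        · exact ⟨h3.1.trans ih.1, h3.2.trans ih.2⟩
        · exfalso
          rw [ih.1] at h3
          have h4 : (lf f i0, v) ∈ gr x' := (hev.1 (i + 1)).1.1 _ h3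
          let j := max i0 (max v β')
          obtain ⟨k, c, h5, h6, h7, h8⟩ := (step1 j).1.2 v (by omega)
          rw [(hconst j (by omega)).1] at h7 h8
          refine hev.2.2 k c (hsub ((step1 j).1.1 _ h5)) (by omega) ⟨_, h7⟩ ?_
          intro y hy
          by_cases hy' : y = (lf f i0, v)
          · rw [hy']; exact h4
          · exact hsub ((step1 j).1.1 _ (h8 y hy hy'))
    obtain ⟨i1, hi1⟩ := hev.2.1
    have g1 := hi1 (max i0 i1) (le_max_right _ _)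
    have g2 := hc' (max i0 i1) (le_max_left _ _)
    apply hne
    refine ⟨l', β', hl', step1, ⟨i0, ?_⟩, ?_⟩
    · intro i hi
      have := hconst i hi
      exact ⟨this.1.trans (g2.1.symm.trans g1.1), this.2.trans (g2.2.symm.trans g1.2)⟩
    · intro k c h3 h4 h5 h6
      exact hev.2.2 k c (hsub h3) h4 h5 (fun y hy => hsub (h6 y hy))
  · push Not at hB
    obtain ⟨f', x', -, h2, l', β', hl', hev⟩ := hcon 0 (fun _ => 0)
    have hsub := h2.gr_sub
    obtain ⟨i, hi, hi'⟩ := hB β'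
    rcases (step1 i).2 with h3 | ⟨v, hv, h3⟩
    · exact hi' h3.1 h3.2
    · have h4 : (lf f i, v) ∈ gr x := (step1 (i + 1)).1.1 _ h3
      obtain ⟨k, c, h5, h6, h7, h8⟩ := (step1 i).1.2 v hv
      refine hev.2.2 k c (hsub ((step1 i).1.1 _ h5)) (by omega) ⟨_, h7⟩ ?_
      intro y hy
      by_cases hy' : y = (lf f i, v)
      · rw [hy']; exact hsub h4
      · exact hsub ((step1 i).1.1 _ (h8 y hy hy'))

lemma isOpen_cyl (m : ℕ) (f : ℕ → ℕ) : IsOpen {f' : ℕ → ℕ | ∀ i, i < m → f' i = f i} := by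
  have : {f' : ℕ → ℕ | ∀ i, i < m → f' i = f i} = ⋂ i ∈ Finset.range m, {f' | f' i = f i} := by
    ext f'
    simp
  rw [this]
  apply isOpen_biInter_finset
  intro i _
  have h : Continuous (fun f' : ℕ → ℕ => f' i) := continuous_apply i
  exact (isOpen_discrete ({f i} : Set ℕ)).preimage h

lemma exists_cyl {N : Set ((ℕ → ℕ) × W)} (hN : IsOpen N) {p : (ℕ → ℕ) × W} (hp : p ∈ N) :
    ∃ (m : ℕ) (G : ℕ → ℕ), ∀ f' x', (∀ i, i < m → f' i = p.1 i) → Ext G p.2 x' → (f', x') ∈ N := by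
  obtain ⟨u, v, hu, hv, hpu, hpv, huv⟩ := isOpen_prod_iff.mp hN p.1 p.2 hp
  obtain ⟨I, w, hw, hwu⟩ := isOpen_pi_iff.mp hu p.1 hpu
  obtain ⟨G, hG⟩ := exists_ext hv hpv
  refine ⟨I.sup id + 1, G, ?_⟩
  intro f' x' h1 h2
  apply huv
  refine ⟨hwu ?_, hG x' h2⟩
  intro i hi
  have h3 : i ≤ I.sup id := Finset.le_sup (f := id) hi
  show f' i ∈ w i
  rw [h1 i (by omega)]
  exact (hw i hi).2

theorem part1 : ¬ CountablyOrthocompact ((ℕ → ℕ) × W) := by
  classical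
  apply not_co (fun p => p.2 0) (fun n => {p | E1 n p.1 (rest p.2)})
  · intro n
    rw [isOpen_iff_forall_mem_open]
    rintro ⟨f, x⟩ ⟨h1, h2⟩
    obtain ⟨m, G, hG⟩ := E1_closed h2
    let G' : ℕ → ℕ := fun k => Nat.casesOn k n G
    refine ⟨{f' | ∀ i, i < m → f' i = f i} ×ˢ {x' : W | Ext G' x x'}, ?_,
      (isOpen_cyl m f).prod (isOpen_ext G' x), ?_⟩
    · rintro ⟨f', x'⟩ ⟨h3, h4⟩
      have h4' : Ext G' x x' := h4
      refine ⟨?_, ?_⟩
      · show (n : ℕ∞) < x' 0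
        have h1' : (n : ℕ∞) < x 0 := h1
        by_cases hx : x 0 = ⊤
        · exact (h4' 0).2 hx
        · have e : x' 0 = x 0 := (h4' 0).1 hx
          rw [e]; exact h1'
      · exact hG f' (rest x') h3 (fun k => h4' (k + 1))
    · refine ⟨fun i _ => rfl, ?_⟩
      intro k
      refine ⟨fun _ => rfl, fun hk => ?_⟩
      exact lt_of_lt_of_eq (ENat.natCast_lt_top (G' k)) hk.symm
  · intro m
    have h1 : {p : (ℕ → ℕ) × W | p.2 0 = (m : ℕ∞)} = Prod.snd ⁻¹' {x : W | x 0 = (m : ℕ∞)} := rfl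
    rw [h1]
    apply IsOpen.preimage continuous_snd
    have h2 : {x : W | x 0 = (m : ℕ∞)} =
        {x : W | ∀ k, x k ∈ (if k = 0 then {(m : ℕ∞)} else univ : Set ℕ∞)} := by
      ext x
      constructor
      · intro h k
        by_cases hk : k = 0
        · subst hk; rw [if_pos rfl]; exact h
        · rw [if_neg hk]; exact mem_univ _
      · intro h
        have := h 0
        rwa [if_pos rfl] at this
    rw [h2]
    apply isOpen_box
    intro k
    by_cases hk : k = 0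
    · rw [if_pos hk]; exact ENat.isOpen_singleton (ENat.natCast_ne_top m)
    · rw [if_neg hk]; exact isOpen_univ
  · rintro ⟨f, x⟩ -
    by_contra hc
    push Not at hc
    obtain ⟨l, β, -, h1⟩ := hc 0
    obtain ⟨l', β', h2, h3⟩ := hc (l + 1)
    have := (h1.l_eq h3).1
    omega
  · rintro m n hmn ⟨f, x⟩ ⟨l, β, h1, h2⟩
    exact ⟨l, β, hmn.trans h1, h2⟩
  · intro N hN
    have hc := fun (p : (ℕ → ℕ) × W) => exists_cyl (hN p).1 (hN p).2
    choose m G hmG using hc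
    obtain ⟨e, Y, hY, h⟩ := player (fun f X => m (f, cons ⊤ (pt X)))
      (fun f X k => G (f, cons ⊤ (pt X)) (k + 1))
    refine ⟨(e, cons ⊤ (pt Y)), rfl, ?_⟩
    intro n
    obtain ⟨f, X, l, β, h1, hX, h2, h3, h4, h5, -, -⟩ := h n
    refine ⟨(f, cons ⊤ (pt X)), rfl, ⟨l, β, h1, ?_⟩, ?_⟩
    · show Ev f (gr (pt X)) l β
      rw [gr_pt hX]; exact h2
    · exact hmG (f, cons ⊤ (pt X)) e _ h3 (ext_cons hX hY h4 h5)
  · rintro ⟨f, x⟩ hx V hV hp
    obtain ⟨m, G, hG⟩ := exists_cyl hV hp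
    refine ⟨G 0 + 1, (f, fun k => if k = 0 then ((G 0 + 1 : ℕ) : ℕ∞) else x k), ?_, rfl⟩
    apply hG
    · intro i _; rfl
    · intro k
      by_cases hk : k = 0
      · subst hk
        refine ⟨fun h => absurd hx h, fun _ => ?_⟩
        show (G 0 : ℕ∞) < ((G 0 + 1 : ℕ) : ℕ∞)
        exact_mod_cast Nat.lt_succ_self _
      · show (x k ≠ ⊤ → (if k = 0 then ((G 0 + 1 : ℕ) : ℕ∞) else x k) = x k) ∧
          (x k = ⊤ → (G k : ℕ∞) < (if k = 0 then ((G 0 + 1 : ℕ) : ℕ∞) else x k))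
        rw [if_neg hk]
        refine ⟨fun _ => rfl, fun h => ?_⟩
        rw [h]; exact ENat.natCast_lt_top _

/-! ### the subspace -/

def Kills (X : Gr) (l : ℕ) : Prop := ∀ v i, ∃ k, i ≤ k ∧ Kill X l v k

def Dead (X : Gr) : Prop :=
  ∀ i, ∃ k c, (k, c) ∈ X ∧ i ≤ k ∧ (msg c).Nonempty ∧ ∀ x ∈ msg c, x ∈ X

lemma Kills.mono {X X' : Gr} {l : ℕ} (h : Kills X l) (hX : X ⊆ X') : Kills X' l := by
  intro v i
  obtain ⟨k, hk, c, h1, h2, h3⟩ := h v i
  exact ⟨k, hk, c, hX h1, h2, fun x hx hne => hX (h3 x hx hne)⟩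

lemma Dead.mono {X X' : Gr} (h : Dead X) (hX : X ⊆ X') : Dead X' := by
  intro i
  obtain ⟨k, c, h1, h2, h3, h4⟩ := h i
  exact ⟨k, c, hX h1, h2, h3, fun x hx => hX (h4 x hx)⟩

def S0 (X : Gr) : Prop := Dead X ∨ ∃ l, Kills X l ∧ Run.Uniq X l

def F2 (n : ℕ) (X : Gr) : Prop := ¬ Dead X ∧ ∃ l, n ≤ l ∧ Kills X l

lemma F2_up {n : ℕ} {X X' : Gr} (h : S0 X) (h' : S0 X') (hX : X ⊆ X') (hF : F2 n X') : F2 n X := by
  obtain ⟨h1, l', h2, h3⟩ := hF
  have hd : ¬ Dead X := fun hd => h1 (hd.mono hX)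
  rcases h with h | ⟨l, hk, hu⟩
  · exact absurd h hd
  · rcases h' with h' | ⟨l'', hk', hu'⟩
    · exact absurd h' h1
    · have e1 : l = l'' := hu' l (hk.mono hX)
      have e2 : l' = l'' := hu' l' h3
      exact ⟨hd, l, by omega, hk⟩

lemma Ev.kills {f : ℕ → ℕ} {X : Gr} {l β : ℕ} (h : Ev f X l β) : Kills X l := by
  intro v i
  obtain ⟨i0, hi0⟩ := h.2.1
  let j := max i0 (max v i)
  obtain ⟨k, c, h1, h2, h3, h4⟩ := (h.1 j).1.2 v (by omega)
  rw [(hi0 j (by omega)).1] at h3 h4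
  exact ⟨k, by omega, c, (h.1 j).1.1 _ h1, h3, fun x hx hne => (h.1 j).1.1 _ (h4 x hx hne)⟩

lemma Ev.not_dead {f : ℕ → ℕ} {X : Gr} {l β : ℕ} (h : Ev f X l β) : ¬ Dead X := by
  intro hd
  obtain ⟨k, c, h1, h2, h3, h4⟩ := hd β
  exact h.2.2 k c h1 h2 h3 h4

def Sset : Set W := {z | S0 (gr (rest z))}

theorem part2 : ¬ CountablyOrthocompact Sset := by
  classical
  apply not_co (fun p : Sset => p.1 0) (fun n => {p : Sset | F2 n (gr (rest p.1))})
  · intro n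
    rw [isOpen_iff_forall_mem_open]
    rintro ⟨x, hx⟩ ⟨h1, h2⟩
    refine ⟨Subtype.val ⁻¹' {x' : W | Ext (fun _ => n) x x'}, ?_,
      (isOpen_ext _ x).preimage continuous_subtype_val, ?_⟩
    · rintro ⟨x', hx'⟩ h4
      have h4' : Ext (fun _ => n) x x' := h4
      refine ⟨?_, ?_⟩
      · show (n : ℕ∞) < x' 0
        have h1' : (n : ℕ∞) < x 0 := h1
        by_cases h0 : x 0 = ⊤
        · exact (h4' 0).2 h0
        · have e : x' 0 = x 0 := (h4' 0).1 h0
          rw [e]; exact h1'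
      · intro hF
        have hE : Ext (fun _ => n) (rest x) (rest x') := fun k => h4' (k + 1)
        exact h2 (F2_up hx hx' hE.gr_sub hF)
    · intro k
      refine ⟨fun _ => rfl, fun hk => ?_⟩
      show ((n : ℕ) : ℕ∞) < x k
      have hk' : x k = ⊤ := hk
      rw [hk']; exact ENat.natCast_lt_top _
  · intro m
    have h2 : {x : W | x 0 = (m : ℕ∞)} =
        {x : W | ∀ k, x k ∈ (if k = 0 then {(m : ℕ∞)} else univ : Set ℕ∞)} := by
      ext x
      constructor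
      · intro h k
        by_cases hk : k = 0
        · subst hk; rw [if_pos rfl]; exact h
        · rw [if_neg hk]; exact mem_univ _
      · intro h
        have := h 0
        rwa [if_pos rfl] at this
    have h3 : IsOpen {x : W | x 0 = (m : ℕ∞)} := by
      rw [h2]
      apply isOpen_box
      intro k
      by_cases hk : k = 0
      · rw [if_pos hk]; exact ENat.isOpen_singleton (ENat.natCast_ne_top m)
      · rw [if_neg hk]; exact isOpen_univ
    exact h3.preimage continuous_subtype_val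
  · rintro ⟨x, hx⟩ -
    rcases hx with hx | ⟨l, hk, hu⟩
    · exact ⟨0, fun h => h.1 hx⟩
    · refine ⟨l + 1, ?_⟩
      rintro ⟨-, l', h1, h2⟩
      have := hu l' h2
      omega
  · rintro m n hmn ⟨x, hx⟩ ⟨h1, l, h2, h3⟩
    exact ⟨h1, l, hmn.trans h2, h3⟩
  · intro N hN
    have hc : ∀ p : Sset, ∃ G : ℕ → ℕ, ∀ x' : Sset, Ext G p.1 x'.1 → x' ∈ N p := by
      intro p
      obtain ⟨O, hO, hON⟩ := isOpen_induced_iff.mp (hN p).1
      have hp : p.1 ∈ O := by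
        have := (hN p).2
        rw [← hON] at this
        exact this
      obtain ⟨G, hG⟩ := exists_ext hO hp
      refine ⟨G, fun x' hx' => ?_⟩
      rw [← hON]
      exact hG x'.1 hx'
    choose G hG using hc
    let gg : (ℕ → ℕ) → Gr → ℕ → ℕ := fun _ X k =>
      if h : cons ⊤ (pt X) ∈ Sset then G ⟨cons ⊤ (pt X), h⟩ (k + 1) else 0
    obtain ⟨e, Y, hY, h⟩ := player (fun _ _ => 0) gg
    have hYS : cons ⊤ (pt Y) ∈ Sset := by
      obtain ⟨f, X, l, β, -, -, h2, -, h4, -, -, v, hv⟩ := h 0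
      left
      show Dead (gr (pt Y))
      rw [gr_pt hY]
      intro i
      obtain ⟨k, hk, c, h5, h6, h7⟩ := h2.kills v i
      refine ⟨k, c, h4 h5, hk, ⟨_, h6⟩, ?_⟩
      intro x hx
      by_cases hx' : x = (l, v)
      · rw [hx']; exact hv
      · exact h4 (h7 x hx hx')
    refine ⟨⟨cons ⊤ (pt Y), hYS⟩, rfl, ?_⟩
    intro n
    obtain ⟨f, X, l, β, h1, hX, h2, -, h4, h5, h6, -⟩ := h n
    have hXS : cons ⊤ (pt X) ∈ Sset := by
      right
      show ∃ l, Kills (gr (pt X)) l ∧ Run.Uniq (gr (pt X)) l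
      rw [gr_pt hX]
      exact ⟨l, h2.kills, h6⟩
    refine ⟨⟨cons ⊤ (pt X), hXS⟩, rfl, ?_, ?_⟩
    · show F2 n (gr (pt X))
      rw [gr_pt hX]
      exact ⟨h2.not_dead, l, h1, h2.kills⟩
    · apply hG
      show Ext (G ⟨cons ⊤ (pt X), hXS⟩) (cons ⊤ (pt X)) (cons ⊤ (pt Y))
      apply ext_cons hX hY h4
      intro k c hk1 hk2
      have := h5 k c hk1 hk2
      simp only [gg, dif_pos hXS] at this
      exact this
  · rintro ⟨x, hxS⟩ hx V hV hp
    have hx' : x 0 = ⊤ := hx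
    obtain ⟨O, hO, hOV⟩ := isOpen_induced_iff.mp hV
    have hpO : x ∈ O := by
      rw [← hOV] at hp
      exact hp
    obtain ⟨G, hG⟩ := exists_ext hO hpO
    let x' : W := fun k => if k = 0 then ((G 0 + 1 : ℕ) : ℕ∞) else x k
    have hr : rest x' = rest x := by
      funext k
      show (if k + 1 = 0 then ((G 0 + 1 : ℕ) : ℕ∞) else x (k + 1)) = x (k + 1)
      rw [if_neg (Nat.succ_ne_zero k)]
    have hxS' : x' ∈ Sset := by
      show S0 (gr (rest x'))
      rw [hr]; exact hxS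
    refine ⟨G 0 + 1, ⟨x', hxS'⟩, ?_, rfl⟩
    rw [← hOV]
    apply hG x'
    intro k
    by_cases hk : k = 0
    · subst hk
      refine ⟨fun h => absurd hx' h, fun _ => ?_⟩
      show (G 0 : ℕ∞) < ((G 0 + 1 : ℕ) : ℕ∞)
      exact_mod_cast Nat.lt_succ_self _
    · show (x k ≠ ⊤ → (if k = 0 then ((G 0 + 1 : ℕ) : ℕ∞) else x k) = x k) ∧
        (x k = ⊤ → (G k : ℕ∞) < (if k = 0 then ((G 0 + 1 : ℕ) : ℕ∞) else x k))
      rw [if_neg hk]
      refine ⟨fun _ => rfl, fun h => ?_⟩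
      rw [h]; exact ENat.natCast_lt_top _

end Pool.Agent.BoxOrtho
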