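import Pool.Agent.BoxOrtho.Cond

namespace Pool.Agent.BoxOrtho

open Set

lemma pigeonhole (g : (ℕ → ℕ) → Gr → ℕ → ℕ) {l : ℕ} {B : Finset ℕ} {Zs : Gr} {p : Cond}
    (hp : Hb l B Zs p) (f0 : ℕ → ℕ) (I : ℕ) (a : Gr) (β : ℕ) (hβ : β ≤ p.κ)
    (ha : ∀ k c, (k, c) ∈ a → k < β) (hβl : β ≤ l)
    (hZs : ∀ k c, (k, c) ∈ Zs → msg c = ∅ ∨ ∃ e w z, (e, w) ∈ msg c ∧ (e, z) ∈ Zs ∧ w ≠ z)
    (hZsp : Zs ⊆ p.Z) :
    ∃ p' N, Le p' p ∧ Hb l B Zs p' ∧ Cert g l B Zs f0 I a β N p' := by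
  classical
  by_contra hcon
  have H : ∀ p', Le p' p → Hb l B Zs p' → ∀ N : ℕ, ∃ p'', Le p'' p' ∧ Hb l B Zs p'' ∧
      Func (p''.Z ∪ a) ∧ Supp f0 I (p''.Z ∪ a) ∧
      ∀ q f, ¬ Out g l Zs f0 I a β N p'' q f := by
    intro p' h1 h2 N
    by_contra h3
    apply hcon
    refine ⟨p', N, h1, h2, ?_⟩
    intro p'' h4 h5 h6 h7
    by_contra h8
    apply h3
    refine ⟨p'', h4, h5, h6, h7, ?_⟩
    intro q f hO
    exact h8 ⟨q, f, hO⟩
  choose pp hpp1 hpp2 hpp3 hpp4 hpp5 using H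
  have step := fun (q : Cond) (hq : Hb l B Zs q) (v n : ℕ) => chain_step hq v n
  choose p1 kk cc JJ hs1 hs2 hs3 hs4 hs5 hs6 hs7 hs8 hs9 using step
  let T := {q : Cond // Le q p ∧ Hb l B Zs q}
  let nxt : ℕ → T → T := fun n s =>
    ⟨p1 (pp s.1 s.2.1 s.2.2 n) (hpp2 s.1 s.2.1 s.2.2 n) (Nat.unpair n).1 n,
      ((hs1 _ _ _ _).trans (hpp1 s.1 s.2.1 s.2.2 n)).trans s.2.1, hs2 _ _ _ _⟩
  let sq : ℕ → T := fun n => Nat.rec ⟨p, Le.refl p, hp⟩ nxt n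
  have hsq : ∀ n, sq (n + 1) = nxt n (sq n) := fun n => rfl
  let P : ℕ → Cond := fun n => (sq n).1
  let Q : ℕ → Cond := fun n => pp (sq n).1 (sq n).2.1 (sq n).2.2 n
  have hQP : ∀ n, Le (Q n) (P n) := fun n => hpp1 _ _ _ _
  have hQb : ∀ n, Hb l B Zs (Q n) := fun n => hpp2 _ _ _ _
  have hPb : ∀ n, Hb l B Zs (P n) := fun n => (sq n).2.2
  have hPp : ∀ n, Le (P n) p := fun n => (sq n).2.1
  have hPQ : ∀ n, Le (P (n + 1)) (Q n) := fun n => hs1 _ _ _ _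
  let K : ℕ → ℕ := fun n => kk (Q n) (hQb n) (Nat.unpair n).1 n
  let C : ℕ → ℕ := fun n => cc (Q n) (hQb n) (Nat.unpair n).1 n
  let J : ℕ → ℕ × ℕ := fun n => JJ (Q n) (hQb n) (Nat.unpair n).1 n
  have hPZ : ∀ n, (P (n + 1)).Z = (Q n).Z ∪ {(K n, C n)} := fun n => hs3 _ _ _ _
  have hKn : ∀ n, n ≤ K n := fun n => hs4 _ _ _ _
  have hCm : ∀ n, (l, (Nat.unpair n).1) ∈ msg (C n) := fun n => hs5 _ _ _ _
  have hCr : ∀ n, ∀ x ∈ msg (C n), x ≠ (l, (Nat.unpair n).1) → x ∈ (Q n).Z :=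
    fun n => hs6 _ _ _ _
  have hJS : ∀ n, J n ∈ (P (n + 1)).S := fun n => hs7 _ _ _ _
  have hJκ : ∀ n, (J n).2 ≤ (P (n + 1)).κ := fun n => hs8 _ _ _ _
  have hJn : ∀ n, n ≤ (J n).1 := fun n => hs9 _ _ _ _
  have hmono : ∀ m n, m ≤ n → Le (P n) (P m) := by
    intro m n hmn
    induction n, hmn using Nat.le_induction with
    | base => exact Le.refl _
    | succ n hmn ih => exact ((hPQ n).trans (hQP n)).trans ih
  have hPQ' : ∀ m n, m < n → Le (P n) (Q m) := fun m n hmn => (hmono (m + 1) n hmn).trans (hPQ m)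
  let X : Gr := ⋃ n, (P n).Z
  have hPX : ∀ n, (P n).Z ⊆ X := fun n => subset_iUnion (fun n => (P n).Z) n
  have hQX : ∀ n, (Q n).Z ⊆ X := fun n => (hPQ n).sub.trans (hPX (n + 1))
  have hmem : ∀ x, x ∈ X → ∃ n, x ∈ (P n).Z := fun x hx => mem_iUnion.mp hx
  have hXfunc : Func X := by
    intro k c c' h1 h2
    obtain ⟨n, hn⟩ := hmem _ h1
    obtain ⟨m, hm⟩ := hmem _ h2
    exact (hPb (max n m)).func k c c' ((hmono n _ (le_max_left _ _)).sub hn)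
      ((hmono m _ (le_max_right _ _)).sub hm)
  have hXl : ∀ c, (l, c) ∉ X := by
    intro c hc
    obtain ⟨n, hn⟩ := hmem _ hc
    exact (hPb n).nl c hn
  have hal : ∀ c, (l, c) ∉ a := by
    intro c hc
    have := ha _ _ hc
    omega
  have hQ0 : ∀ k c, (k, c) ∈ X → (k, c) ∉ (Q 0).Z → β ≤ k := by
    intro k c h1 h2
    obtain ⟨n, hn⟩ := hmem _ h1
    have h3 : (k, c) ∈ (P (n + 1)).Z := (hmono n (n + 1) (Nat.le_succ n)).sub hn
    have h4 := ((hPQ' 0 (n + 1) (Nat.succ_pos n)).tail k c h3 h2).1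
    have h5 := ((hQP 0).trans (hPp 0)).κ_le
    omega
  have hXa : Func (X ∪ a) := by
    have key : ∀ k c c', (k, c) ∈ X → (k, c') ∈ a → c = c' := by
      intro k c c' h1 h2
      have h3 := ha _ _ h2
      by_cases h4 : (k, c) ∈ (Q 0).Z
      · exact hpp3 _ _ _ _ k c c' (Or.inl h4) (Or.inr h2)
      · have := hQ0 k c h1 h4
        omega
    intro k c c' h1 h2
    rcases h1 with h1 | h1 <;> rcases h2 with h2 | h2
    · exact hXfunc k c c' h1 h2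
    · exact key k c c' h1 h2
    · exact (key k c' c h2 h1).symm
    · exact hpp3 _ _ _ _ k c c' (Or.inr h1 : (k, c) ∈ (Q 0).Z ∪ a) (Or.inr h2)
  have hZsX : Zs ⊆ X := hZsp.trans ((hPp 0).sub.trans (hPX 0))
  have hgood : GoodInf l Zs X := by
    intro k c h1 h2
    obtain ⟨n, hn⟩ := hmem _ h1
    obtain ⟨ν, hν⟩ := (hPb n).good
    rcases hν k c hn h2 with h | ⟨w, -, h⟩ | ⟨e, w, z, -, h3, h4, h5, h6⟩
    · exact Or.inl h
    · exact Or.inr (Or.inl ⟨w, h⟩)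
    · exact Or.inr (Or.inr ⟨e, w, z, h3, h4, hPX n h5, h6⟩)
  have hquiet : Quiet (X ∪ a) β := by
    intro k c h1 h2 h3 h4
    rcases h1 with h1 | h1
    · by_cases hz : (k, c) ∈ Zs
      · rcases hZs k c hz with h | ⟨e, w, z, h5, h6, h7⟩
        · rw [h] at h3; exact Finset.not_nonempty_empty h3
        · exact h7 (hXa e w z (h4 _ h5) (Or.inl (hZsX h6)))
      · rcases hgood k c h1 hz with h | ⟨w, h⟩ | ⟨e, w, z, -, h5, h6, h7⟩
        · rw [h] at h3; exact Finset.not_nonempty_empty h3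
        · rcases h4 _ h with h | h
          · exact hXl _ h
          · exact hal _ h
        · exact h7 (hXa e w z (h4 _ h5) (Or.inl h6))
    · have := ha _ _ h1
      omega
  have hK : ∀ v i, ∃ k, i ≤ k ∧ Kill (X ∪ a) l v k := by
    intro v i
    refine ⟨K (Nat.pair v i), (Nat.right_le_pair v i).trans (hKn _), C (Nat.pair v i), ?_, ?_, ?_⟩
    · left
      apply hPX (Nat.pair v i + 1)
      rw [hPZ]
      exact Or.inr rfl
    · have := hCm (Nat.pair v i)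
      rwa [Nat.unpair_pair] at this
    · intro x hx hne
      left
      have := hCr (Nat.pair v i) x hx
      rw [Nat.unpair_pair] at this
      exact hQX _ (this hne)
  have hsupp : Supp f0 I (X ∪ a) :=
    (hpp4 _ _ _ _ : Supp f0 I ((Q 0).Z ∪ a)).mono (union_subset_union_left _ (hQX 0))
  obtain ⟨f, hf1, hf2⟩ := exists_f hK hquiet f0 I hsupp
  let N0 := g f (X ∪ a) l
  let q : Cond := ⟨X, (Q N0).G, (Q N0).E, (Q N0).κ, {j | ∃ n, N0 ≤ n ∧ j = J n}⟩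
  apply hpp5 (sq N0).1 (sq N0).2.1 (sq N0).2.2 N0 q f
  refine ⟨?_, ?_, hXl, hXa, hf1, hf2, hgood, le_rfl⟩
  · refine ⟨hQX N0, ?_, fun k _ => le_rfl, fun k _ x hx => hx, le_rfl, ?_⟩
    · intro k c h1 h2
      obtain ⟨n, hn⟩ := hmem _ h1
      have h3 : (k, c) ∈ (P (max n (N0 + 1))).Z := (hmono n _ (le_max_left _ _)).sub hn
      exact (hPQ' N0 _ (lt_of_lt_of_le (Nat.lt_succ_self _) (le_max_right _ _))).tail k c h3 h2
    · rintro j ⟨n, hn, rfl⟩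
      obtain ⟨J', hJ', b1, b2, b3⟩ := (hPQ' N0 (n + 1) (by omega)).S_le _ (hJS n)
      refine ⟨J', hJ', b1, b2, ?_⟩
      intro k c h
      by_cases hk : (k, c) ∈ (P (n + 1)).Z
      · exact b3 k c ⟨hk, h.2⟩
      · right
        obtain ⟨m, hm⟩ := hmem _ h.1
        have h3 : (k, c) ∈ (P (max m (n + 1))).Z := (hmono m _ (le_max_left _ _)).sub hm
        have h4 := ((hmono (n + 1) _ (le_max_right m (n + 1))).tail k c h3 hk).1
        exact b2.trans ((hJκ n).trans h4)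
  · intro n
    exact ⟨J (max n N0), ⟨max n N0, le_max_right _ _, rfl⟩, (le_max_left n N0).trans (hJn _)⟩

/-- finitely many situations at once -/
lemma pigeonhole_finset (g : (ℕ → ℕ) → Gr → ℕ → ℕ) {l : ℕ} {B : Finset ℕ} {Zs : Gr}
    {ι : Type} (F : Finset ι) (f0 : ι → ℕ → ℕ) (I : ι → ℕ) (a : ι → Gr) (β : ℕ)
    (ha : ∀ s ∈ F, ∀ k c, (k, c) ∈ a s → k < β) (hβl : β ≤ l)
    (hZs : ∀ k c, (k, c) ∈ Zs → msg c = ∅ ∨ ∃ e w z, (e, w) ∈ msg c ∧ (e, z) ∈ Zs ∧ w ≠ z)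
    {p : Cond} (hp : Hb l B Zs p) (hβ : β ≤ p.κ) (hZsp : Zs ⊆ p.Z) :
    ∃ p' N, Le p' p ∧ Hb l B Zs p' ∧ ∀ s ∈ F, Cert g l B Zs (f0 s) (I s) (a s) β N p' := by
  classical
  induction F using Finset.induction_on with
  | empty => exact ⟨p, 0, Le.refl p, hp, by simp⟩
  | insert s F hs ih =>
    obtain ⟨p1, N1, h1, h2, h3⟩ := ih (fun s hs => ha s (Finset.mem_insert_of_mem hs))
    obtain ⟨p2, N2, k1, k2, k3⟩ := pigeonhole g h2 (f0 s) (I s) (a s) β (hβ.trans h1.κ_le)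
      (ha s (Finset.mem_insert_self _ _)) hβl hZs (hZsp.trans h1.sub)
    refine ⟨p2, max N1 N2, k1.trans h1, k2, ?_⟩
    intro s' hs'
    have wk : ∀ s'' N p', Cert g l B Zs (f0 s'') (I s'') (a s'') β N p' → ∀ N', N ≤ N' →
        Cert g l B Zs (f0 s'') (I s'') (a s'') β N' p' := by
      intro s'' N p' hc N' hN p'' e1 e2 e3 e4
      obtain ⟨q, f, hO⟩ := hc p'' e1 e2 e3 e4
      exact ⟨q, f, { hO with bound := hO.bound.trans hN }⟩
    rcases Finset.mem_insert.mp hs' with rfl | hs'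
    · exact wk _ _ _ k3 _ (le_max_right _ _)
    · exact wk _ _ _ ((h3 s' hs').le k1) _ (le_max_left _ _)

end Pool.Agent.BoxOrtho
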