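import Pool.Agent.BoxOrtho.Tail

namespace Pool.Agent.BoxOrtho

open Set

lemma Supp.congr {f f' : ℕ → ℕ} {I : ℕ} {X : Gr} (h : Supp f I X) (hf : ∀ i, i < I → f' i = f i) :
    Supp f' I X := by
  have hl : ∀ i, i < I → lf f' i = lf f i := fun i hi => by simp [lf, hf i hi]
  have hb : ∀ i, i < I → bf f' i = bf f i := fun i hi => by simp [bf, hf i hi]
  have hA : ∀ i, i < I → Af f' i = Af f i := fun i hi => by simp [Af, hf i hi]
  refine ⟨?_, ?_, ?_⟩
  · intro i hi
    have := h.1 i hi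
    unfold EvA
    rw [hl i hi, hA i hi]
    exact this
  · intro i hi
    have := h.2.1 i hi
    unfold Chg
    rw [hl i (by omega), hA _ hi, hl _ hi, hb _ hi, hb i (by omega)]
    exact this
  · intro i hi
    have := h.2.2 i hi
    rw [hl i (by omega)]
    exact this

namespace Run

variable {g : (ℕ → ℕ) → Gr → ℕ → ℕ} (R : Run g)

structure St where
  t : Gr
  b : ℕ
  A : Set ℕ
  D : ℕ → ℕ
  f : ℕ → ℕ
  I : ℕ
  ts : R.TS t b A
  supp : ∃ U, ∀ u, U ≤ u → Supp f I (R.Zm u ∪ t)

structure Rel (mm : (ℕ → ℕ) → Gr → ℕ) (st st' : R.St) (n u : ℕ) : Prop where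
  nu : n ≤ u
  sub : st.t ⊆ st'.t
  new : ∀ k c, (k, c) ∈ st'.t → (k, c) ∉ st.t → st.D k < c
  D_le : ∀ k, st.D k ≤ st'.D k
  D_g : ∀ k, g st'.f (R.Zm u ∪ st'.t) k ≤ st'.D k
  agree : ∀ i, i < st.I → st'.f i = st.f i
  ev : Ev st'.f (R.Zm u ∪ st'.t) (R.l u) (R.i u)
  bound : g st'.f (R.Zm u ∪ st'.t) (R.l u) < R.v u
  uniq : Uniq (R.Zm u ∪ st'.t) (R.l u)
  nl : ∀ c, (R.l u, c) ∉ R.Zm u ∪ st'.t
  I_lt : st.I < st'.I
  mI : mm st'.f (R.Zm u ∪ st'.t) ≤ st'.I

lemma next (mm : (ℕ → ℕ) → Gr → ℕ) (st : R.St) (n : ℕ) :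
    ∃ (st' : R.St) (u : ℕ), Rel R mm st st' n u := by
  classical
  obtain ⟨U, hU⟩ := st.supp
  let L : List ℕ := (List.range st.I).map st.f
  let s := Encodable.encode L
  obtain ⟨u, huA, hu⟩ := st.ts.inf (max st.b (max U (max n s)))
  have hsI : sI s = st.I := by simp [sI, s, sl_encode, L]
  have hsf : ∀ i, i < st.I → sf s i = st.f i := by
    intro i hi
    simp only [sf, s, sl_encode, L]
    rw [List.getD_eq_getElem?_getD, List.getElem?_map, List.getElem?_range hi]
    rfl
  have hsupp : Supp (sf s) (sI s) (R.Zm u ∪ st.t) := by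
    rw [hsI]
    exact (hU u (by omega)).congr hsf
  obtain ⟨t', A', f, h1, h2, h3, h4, h5, h6, h7, h8⟩ :=
    R.step st.ts st.D (show st.b ≤ u by omega) huA (show s ≤ u by omega) hsupp
  rw [hsI] at h4
  obtain ⟨i0, hi0⟩ := h5.2.1
  let X : Gr := R.Zm u ∪ t'
  let I' := st.I + 1 + mm f X + R.v u + 1 + i0
  let M := (Finset.range I').sup (fun i => (Af f i).sup Prod.fst)
  have hM : ∀ i, i < I' → ∀ x ∈ Af f i, x.1 ≤ M := by
    intro i hi x hx
    have e1 : x.1 ≤ (Af f i).sup Prod.fst := Finset.le_sup (f := Prod.fst) hx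
    have e2 : (Af f i).sup Prod.fst ≤ M :=
      Finset.le_sup (f := fun i => (Af f i).sup Prod.fst) (Finset.mem_range.mpr hi)
    exact e1.trans e2
  refine ⟨⟨t', u + 1, A', fun k => max (st.D k) (g f X k), f, I', h1, ⟨u + 1 + M + 1, ?_⟩⟩, u, ?_⟩
  · intro u' hu'
    refine ⟨?_, ?_, ?_⟩
    · intro i hi
      have e := (h5.1 i).1
      refine ⟨?_, e.2⟩
      intro x hx
      have e1 := e.1 x hx
      rcases e1 with e1 | e1
      · left
        refine ⟨e1.1, ?_⟩
        intro e2
        have e3 : x.1 = R.l u' := congrArg Prod.fst (mem_singleton_iff.mp e2)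
        have e4 := hM i hi x hx
        have e5 := R.l_ge u'
        omega
      · exact Or.inr e1
    · intro i hi
      exact (h5.1 i).2
    · intro i hi
      have e1 := (hi0 i (by omega)).1
      refine ⟨R.v u, by omega, ?_⟩
      left
      rw [e1]
      refine ⟨R.lv_mem u, ?_⟩
      intro e2
      have := R.l_inj (congrArg Prod.fst (mem_singleton_iff.mp e2))
      omega
  · exact
      { nu := by omega
        sub := h2
        new := h3
        D_le := fun k => le_max_left _ _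
        D_g := fun k => le_max_right _ _
        agree := fun i hi => (h4 i hi).trans (hsf i hi)
        ev := h5
        bound := h6
        uniq := h7
        nl := h8
        I_lt := by show st.I < I'; omega
        mI := by show mm f X ≤ I'; omega }

lemma exists_St0 : Nonempty R.St := by
  refine ⟨⟨∅, 0, univ, fun _ => 0, fun _ => 0, 0, ?_, ⟨0, ?_⟩⟩⟩
  · refine ⟨fun k c c' h => absurd h (notMem_empty _), fun k c c' h => absurd h (notMem_empty _),
      fun u _ k c h => absurd h (notMem_empty _), fun n => ⟨n, mem_univ _, le_rfl⟩,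
      fun u _ k c h => absurd h (notMem_empty _)⟩
  · intro u _
    exact ⟨fun i hi => absurd hi (Nat.not_lt_zero _), fun i hi => absurd hi (Nat.not_lt_zero _),
      fun i hi => absurd hi (Nat.succ_ne_zero _)⟩

end Run

theorem player (mm : (ℕ → ℕ) → Gr → ℕ) (gg : (ℕ → ℕ) → Gr → ℕ → ℕ) :
    ∃ (e : ℕ → ℕ) (Y : Gr), Func Y ∧ ∀ n, ∃ f X l β, n ≤ l ∧ Func X ∧ Ev f X l β ∧
      (∀ i, i < mm f X → e i = f i) ∧ X ⊆ Y ∧
      (∀ k c, (k, c) ∈ Y → (∀ c', (k, c') ∉ X) → gg f X k < c) ∧ Run.Uniq X l ∧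
      ∃ v, (l, v) ∈ Y := by
  classical
  obtain ⟨R⟩ := exists_run gg
  obtain ⟨st0⟩ := R.exists_St0
  have nx := fun (st : R.St) (n : ℕ) => R.next mm st n
  choose ns us hrel using nx
  let sq : ℕ → R.St := fun n => Nat.rec st0 (fun n st => ns st n) n
  have hrel' : ∀ n, R.Rel mm (sq n) (sq (n + 1)) n (us (sq n) n) := fun n => hrel _ _
  let u : ℕ → ℕ := fun n => us (sq n) n
  have tmono : ∀ m n, m ≤ n → (sq m).t ⊆ (sq n).t := by
    intro m n h
    induction n, h using Nat.le_induction with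
    | base => exact subset_rfl
    | succ n _ ih => exact ih.trans (hrel' n).sub
  have Dmono : ∀ m n, m ≤ n → ∀ k, (sq m).D k ≤ (sq n).D k := by
    intro m n h k
    induction n, h using Nat.le_induction with
    | base => exact le_rfl
    | succ n _ ih => exact ih.trans ((hrel' n).D_le k)
  have Imono : ∀ m n, m ≤ n → (sq m).I ≤ (sq n).I := by
    intro m n h
    induction n, h using Nat.le_induction with
    | base => exact le_rfl
    | succ n _ ih => exact ih.trans (hrel' n).I_lt.le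
  have Ige : ∀ n, n ≤ (sq n).I := by
    intro n
    induction n with
    | zero => exact Nat.zero_le _
    | succ n ih =>
      have := (hrel' n).I_lt
      omega
  have fagree : ∀ m n, m ≤ n → ∀ i, i < (sq m).I → (sq n).f i = (sq m).f i := by
    intro m n h i hi
    induction n, h using Nat.le_induction with
    | base => rfl
    | succ n hmn ih => exact ((hrel' n).agree i (lt_of_lt_of_le hi (Imono m n hmn))).trans ih
  let Y : Gr := R.Z ∪ ⋃ n, (sq n).t
  have hY : Func Y := by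
    have k1 : ∀ k c c', (k, c) ∈ R.Z → (k, c') ∈ ⋃ n, (sq n).t → c = c' := by
      intro k c c' h1 h2
      obtain ⟨n, hn⟩ := mem_iUnion.mp h2
      exact absurd h1 ((sq n).ts.disj k c' c hn)
    intro k c c' h1 h2
    rcases h1 with h1 | h1 <;> rcases h2 with h2 | h2
    · exact R.funcZ k c c' h1 h2
    · exact k1 k c c' h1 h2
    · exact (k1 k c' c h2 h1).symm
    · obtain ⟨n, hn⟩ := mem_iUnion.mp h1
      obtain ⟨m, hm⟩ := mem_iUnion.mp h2
      exact (sq (max n m)).ts.func k c c' (tmono n _ (le_max_left _ _) hn)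
        (tmono m _ (le_max_right _ _) hm)
  refine ⟨fun i => (sq (i + 1)).f i, Y, hY, ?_⟩
  intro n
  have r := hrel' n
  have hXY : R.Zm (u n) ∪ (sq (n + 1)).t ⊆ Y := by
    rintro x (hx | hx)
    · exact Or.inl hx.1
    · exact Or.inr (mem_iUnion.mpr ⟨n + 1, hx⟩)
  refine ⟨(sq (n + 1)).f, R.Zm (u n) ∪ (sq (n + 1)).t, R.l (u n), R.i (u n),
    r.nu.trans (R.l_ge _), fun k c c' h1 h2 => hY k c c' (hXY h1) (hXY h2), r.ev, ?_, hXY, ?_,
    r.uniq, R.v (u n), Or.inl (R.lv_mem _)⟩
  · intro i hi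
    have h1 : i < (sq (n + 1)).I := lt_of_lt_of_le hi r.mI
    show (sq (i + 1)).f i = (sq (n + 1)).f i
    rcases le_total (i + 1) (n + 1) with h2 | h2
    · exact (fagree _ _ h2 i (lt_of_lt_of_le (Nat.lt_succ_self i) (Ige (i + 1)))).symm
    · exact fagree _ _ h2 i h1
  · intro k c h1 h2
    rcases h1 with h1 | h1
    · have h3 : (k, c) = (R.l (u n), R.v (u n)) := by
        by_contra h4
        exact h2 c (Or.inl ⟨h1, h4⟩)
      obtain ⟨rfl, rfl⟩ := Prod.mk.inj h3
      exact r.bound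
    · obtain ⟨m, hm⟩ := mem_iUnion.mp h1
      -- least index
      have hex : ∃ m, (k, c) ∈ (sq m).t := ⟨m, hm⟩
      have hf := Nat.find_spec hex
      have hlt : n + 1 < Nat.find hex := by
        by_contra h3
        exact h2 c (Or.inr (tmono _ _ (le_of_not_gt h3) hf))
      obtain ⟨w, hw⟩ : ∃ w, Nat.find hex = w + 1 := ⟨Nat.find hex - 1, by omega⟩
      rw [hw] at hf
      have hnot : (k, c) ∉ (sq w).t := Nat.find_min hex (by omega)
      have h4 := (hrel' w).new k c hf hnot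
      have h5 := Dmono (n + 1) w (by omega) k
      have h6 := r.D_g k
      exact lt_of_le_of_lt (h6.trans h5) h4

end Pool.Agent.BoxOrtho
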