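import Pool.Agent.BoxOrtho.Stage

namespace Pool.Agent.BoxOrtho

open Set

structure Run (g : (ℕ → ℕ) → Gr → ℕ → ℕ) where
  P : ℕ → Cond
  Q : ℕ → Cond
  B : ℕ → Finset ℕ
  l : ℕ → ℕ
  v : ℕ → ℕ
  i : ℕ → ℕ
  ok : ∀ j, StageOK g (B j) (P j) j (l j) (v j) (i j) (Q j) (P (j + 1))
  B0 : B 0 = ∅
  Bs : ∀ j, B (j + 1) = insert (l j) (B j)
  fl : ∀ j, Full (B j) (P j)

lemma exists_run (g : (ℕ → ℕ) → Gr → ℕ → ℕ) : Nonempty (Run g) := by
  classical
  let P0 : Cond := ⟨∅, fun _ => 0, fun _ => ∅, 0, {J | J.2 = J.1 + 1}⟩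
  have h0 : Full ∅ P0 := by
    refine ⟨fun k c c' h => absurd h (notMem_empty _), ?_, ?_, fun k c h => absurd h (notMem_empty _), ?_⟩
    · intro n
      exact ⟨(n, n + 1), rfl, le_rfl⟩
    · intro J hJ
      refine ⟨J.1, le_rfl, ?_, fun c => notMem_empty _⟩
      have : J.2 = J.1 + 1 := hJ
      omega
    · intro k x hx
      exact absurd hx (Finset.notMem_empty _)
  have st := fun (B : Finset ℕ) (P : Cond) (hP : Full B P) (j : ℕ) => stage g B P hP j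
  choose l v i Q P' hst using st
  let T := {s : Finset ℕ × Cond // Full s.1 s.2}
  let nxt : ℕ → T → T := fun j s =>
    ⟨(insert (l s.1.1 s.1.2 s.2 j) s.1.1, P' s.1.1 s.1.2 s.2 j), (hst s.1.1 s.1.2 s.2 j).full⟩
  let sq : ℕ → T := fun n => Nat.rec ⟨(∅, P0), h0⟩ nxt n
  exact ⟨{ P := fun n => (sq n).1.2
           Q := fun n => Q (sq n).1.1 (sq n).1.2 (sq n).2 n
           B := fun n => (sq n).1.1
           l := fun n => l (sq n).1.1 (sq n).1.2 (sq n).2 n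
           v := fun n => v (sq n).1.1 (sq n).1.2 (sq n).2 n
           i := fun n => i (sq n).1.1 (sq n).1.2 (sq n).2 n
           ok := fun n => hst (sq n).1.1 (sq n).1.2 (sq n).2 n
           B0 := rfl
           Bs := fun n => rfl
           fl := fun n => (sq n).2 }⟩

namespace Run

variable {g : (ℕ → ℕ) → Gr → ℕ → ℕ} (R : Run g)

lemma mono {m n : ℕ} (h : m ≤ n) : Le (R.P n) (R.P m) := by
  induction n, h using Nat.le_induction with
  | base => exact Le.refl _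
  | succ n _ ih => exact (R.ok n).le.trans ih

lemma le_κ (n : ℕ) : n ≤ (R.P n).κ := by
  cases n with
  | zero => exact Nat.zero_le _
  | succ n => exact (R.ok n).jκ

def Z : Gr := ⋃ n, (R.P n).Z

lemma sub_Z (n : ℕ) : (R.P n).Z ⊆ R.Z := subset_iUnion (fun n => (R.P n).Z) n

lemma mem_Z {x : ℕ × ℕ} (h : x ∈ R.Z) : ∃ n, x ∈ (R.P n).Z := mem_iUnion.mp h

lemma funcZ : Func R.Z := by
  intro k c c' h1 h2
  obtain ⟨n, hn⟩ := R.mem_Z h1
  obtain ⟨m, hm⟩ := R.mem_Z h2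
  exact (R.fl (max n m)).func k c c' ((R.mono (le_max_left _ _)).sub hn)
    ((R.mono (le_max_right _ _)).sub hm)

lemma lv_mem' (j : ℕ) : (R.l j, R.v j) ∈ (R.P (j + 1)).Z := by
  rw [(R.ok j).Z_eq]; exact Or.inr rfl

lemma lv_mem (j : ℕ) : (R.l j, R.v j) ∈ R.Z := R.sub_Z _ (R.lv_mem' j)

lemma l_unique {j c : ℕ} (h : (R.l j, c) ∈ R.Z) : c = R.v j := R.funcZ _ _ _ h (R.lv_mem j)

lemma fresh {j m : ℕ} (h : m ≤ j) (c : ℕ) : (R.l j, c) ∉ (R.P m).Z :=
  fun hc => (R.ok j).fresh c ((R.mono h).sub hc)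

lemma coord {n k c : ℕ} (h1 : (k, c) ∈ R.Z) (h2 : (k, c) ∉ (R.P n).Z) : (R.P n).κ ≤ k := by
  obtain ⟨m, hm⟩ := R.mem_Z h1
  have h3 : (k, c) ∈ (R.P (max m n)).Z := (R.mono (le_max_left _ _)).sub hm
  exact ((R.mono (le_max_right m n)).tail k c h3 h2).1

lemma l_mem_B {m n : ℕ} (h : m < n) : R.l m ∈ R.B n := by
  induction n, (show m + 1 ≤ n from h) using Nat.le_induction with
  | base => rw [R.Bs]; exact Finset.mem_insert_self _ _
  | succ n _ ih => rw [R.Bs]; exact Finset.mem_insert_of_mem (ih (by omega))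

lemma B_mono {m n : ℕ} (h : m ≤ n) : R.B m ⊆ R.B n := by
  induction n, h using Nat.le_induction with
  | base => exact subset_rfl
  | succ n _ ih =>
    rw [R.Bs]
    exact ih.trans (Finset.subset_insert _ _)

lemma mem_B {e n : ℕ} (h : e ∈ R.B n) : ∃ m, m < n ∧ e = R.l m := by
  induction n with
  | zero => rw [R.B0] at h; exact absurd h (Finset.notMem_empty _)
  | succ n ih =>
    rw [R.Bs, Finset.mem_insert] at h
    rcases h with h | h
    · exact ⟨n, Nat.lt_succ_self n, h⟩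
    · obtain ⟨m, hm, he⟩ := ih h
      exact ⟨m, by omega, he⟩

lemma E_avoid {n k : ℕ} {x : ℕ × ℕ} (h : x ∈ (R.P n).E k) :
    x ∈ (R.P n).Z ∧ ∀ m, x.1 ≠ R.l m := by
  have h1 := (R.fl n).E_sub k x h
  refine ⟨h1.1, ?_⟩
  intro m hm
  by_cases hmn : m < n
  · exact h1.2 (hm ▸ R.l_mem_B hmn)
  · apply R.fresh (le_of_not_gt hmn) x.2
    rw [← hm]
    exact h1.1

lemma l_lt_κ (j : ℕ) : R.l j < (R.P (j + 1)).κ := by
  obtain ⟨J, hJ, h1, h2⟩ := (R.ok j).interval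
  obtain ⟨k, h3, h4, -⟩ := (R.fl (j + 1)).free J hJ
  omega

lemma l_ge (j : ℕ) : j ≤ R.l j := (R.ok j).ji.trans (R.ok j).il

lemma l_inj {j m : ℕ} (h : R.l j = R.l m) : j = m := by
  rcases lt_trichotomy j m with h1 | h1 | h1
  · exfalso
    exact R.fresh (show j + 1 ≤ m from h1) _ (h ▸ R.lv_mem' j)
  · exact h1
  · exfalso
    exact R.fresh (show m + 1 ≤ j from h1) _ (h ▸ R.lv_mem' m)

/-- classification of the elements added from stage u on -/
lemma classify {u : ℕ} {x : ℕ × ℕ} (h1 : x ∈ R.Z) (h2 : x ∉ (R.P u).Z) :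
    ∃ w, u ≤ w ∧ x ∉ (R.P w).Z ∧ (x ∈ (R.Q w).Z ∨ x = (R.l w, R.v w)) := by
  classical
  obtain ⟨n, hn⟩ := R.mem_Z h1
  have hex : ∃ n, x ∈ (R.P n).Z := ⟨n, hn⟩
  let m := Nat.find hex
  have hm : x ∈ (R.P m).Z := Nat.find_spec hex
  have hum : u < m := by
    by_contra hc
    exact h2 ((R.mono (le_of_not_gt hc)).sub hm)
  obtain ⟨w, hw⟩ : ∃ w, m = w + 1 := ⟨m - 1, by omega⟩
  refine ⟨w, by omega, ?_, ?_⟩
  · intro hw'
    exact Nat.find_min hex (show w < Nat.find hex by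
      change w < m
      omega) hw'
  · rw [hw, (R.ok w).Z_eq] at hm
    rcases hm with hm | hm
    · exact Or.inl hm
    · exact Or.inr hm

end Run

end Pool.Agent.BoxOrtho
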