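import Pool.Agent.BoxOrtho.Parts
import Pool.Agent.BoxOrtho.Covers

namespace Pool.Agent.BoxOrtho

open Set TopologicalSpace Topology

/-- closed shrinkings of the increasing cover by complements of the sets F n -/
def Shrinks {T : Type} [TopologicalSpace T] (F : ℕ → Set T) : Prop :=
  ∃ K : ℕ → Set T, (∀ n, IsClosed (K n)) ∧ (∀ n x, x ∈ K n → x ∉ F n) ∧ ∀ x, ∃ n, x ∈ K n

lemma not_shrinks {T : Type} [TopologicalSpace T] (F : ℕ → Set T)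
    (hanti : ∀ m n, m ≤ n → F n ⊆ F m) (hcov : ∀ p, ∃ n, p ∉ F n)
    (hbad : ∀ N : T → Set T, (∀ p, IsOpen (N p) ∧ p ∈ N p) →
      ∃ q, ∀ n, ∃ p, p ∈ F n ∧ q ∈ N p) : ¬ Shrinks F := by
  rintro ⟨K, hK, hKF, hKc⟩
  obtain ⟨q, hq⟩ := hbad (fun p => (⋃ m ∈ {m | p ∈ F m}, K m)ᶜ) (by
    intro p
    constructor
    · rw [isOpen_compl_iff]
      apply Set.Finite.isClosed_biUnion
      · obtain ⟨n, hn⟩ := hcov p
        apply (finite_lt_nat n).subset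
        intro m hm
        by_contra hmn
        exact hn (hanti n m (not_lt.mp hmn) hm)
      · intro m _
        exact hK m
    · simp only [mem_compl_iff, mem_iUnion, not_exists]
      intro m hm hpm
      exact hKF m p hpm hm)
  obtain ⟨n, hn⟩ := hKc q
  obtain ⟨p, hp, hqp⟩ := hq n
  apply hqp
  simp only [mem_iUnion]
  exact ⟨n, hp, hn⟩

lemma shrinks_of_metacompact {T : Type} [TopologicalSpace T] (hT : IsMetacompact T) (F : ℕ → Set T)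
    (hF : ∀ n, IsClosed (F n)) (hanti : ∀ m n, m ≤ n → F n ⊆ F m) (hcov : ∀ p, ∃ n, p ∉ F n) :
    Shrinks F := by
  obtain ⟨𝒱, hVo, hVc, hVr, hVf⟩ := hT (range (fun n => (F n)ᶜ))
    (by rintro U ⟨n, rfl⟩; exact (hF n).isOpen_compl)
    (by
      apply eq_univ_of_forall
      intro p
      obtain ⟨n, hn⟩ := hcov p
      exact mem_sUnion.mpr ⟨_, ⟨n, rfl⟩, hn⟩)
  refine ⟨fun n => (⋃₀ {V | V ∈ 𝒱 ∧ ¬ V ⊆ (F n)ᶜ})ᶜ, ?_, ?_, ?_⟩
  · intro n
    rw [isClosed_compl_iff]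
    exact isOpen_sUnion (fun V hV => hVo V hV.1)
  · intro n x hx hxF
    apply hx
    have hx' : x ∈ ⋃₀ 𝒱 := by rw [hVc]; exact mem_univ x
    obtain ⟨V, hV, hxV⟩ := mem_sUnion.mp hx'
    exact mem_sUnion.mpr ⟨V, ⟨hV, fun h => h hxV hxF⟩, hxV⟩
  · intro x
    have h1 : ∀ V ∈ 𝒱, ∃ n, V ⊆ (F n)ᶜ := by
      intro V hV
      obtain ⟨U, ⟨n, rfl⟩, hU⟩ := hVr V hV
      exact ⟨n, hU⟩
    choose! r hr using h1
    obtain ⟨B, hB⟩ := ((hVf x).image r).bddAbove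
    refine ⟨B, ?_⟩
    rintro ⟨V, ⟨hV, hVF⟩, hxV⟩
    apply hVF
    have h2 : r V ≤ B := hB ⟨V, ⟨hV, hxV⟩, rfl⟩
    intro y hy hyF
    exact hr V hV hy (hanti _ _ h2 hyF)

lemma shrinks_of_subparacompact {T : Type} [TopologicalSpace T] (hT : IsSubparacompact T)
    (F : ℕ → Set T) (hF : ∀ n, IsClosed (F n)) (hanti : ∀ m n, m ≤ n → F n ⊆ F m)
    (hcov : ∀ p, ∃ n, p ∉ F n) : Shrinks F := by
  obtain ⟨E, hE, hEc, hEd⟩ := hT (range (fun n => (F n)ᶜ))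
    (by rintro U ⟨n, rfl⟩; exact (hF n).isOpen_compl)
    (by
      apply eq_univ_of_forall
      intro p
      obtain ⟨n, hn⟩ := hcov p
      exact mem_sUnion.mpr ⟨_, ⟨n, rfl⟩, hn⟩)
  refine ⟨fun n => ⋃ j ∈ {j | j ≤ n}, ⋃₀ {C | C ∈ E j ∧ C ⊆ (F n)ᶜ}, ?_, ?_, ?_⟩
  · intro n
    apply Set.Finite.isClosed_biUnion (finite_le_nat n)
    intro j _
    rw [← isOpen_compl_iff, isOpen_iff_forall_mem_open]
    intro x hx
    obtain ⟨O, hO, hxO, hOd⟩ := hEd j x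
    by_cases hC : ∃ C, C ∈ E j ∧ C ⊆ (F n)ᶜ ∧ (C ∩ O).Nonempty
    · obtain ⟨C, hC1, hC2, hC3⟩ := hC
      refine ⟨O ∩ Cᶜ, ?_, hO.inter (hE j C hC1).1.isOpen_compl, hxO, ?_⟩
      · rintro y ⟨hyO, hyC⟩ ⟨D, ⟨hD1, hD2⟩, hyD⟩
        have := hOd C hC1 D hD1 hC3 ⟨y, hyD, hyO⟩
        rw [this] at hyC
        exact hyC hyD
      · intro hxC
        exact hx ⟨C, ⟨hC1, hC2⟩, hxC⟩
    · refine ⟨O, ?_, hO, hxO⟩
      rintro y hyO ⟨D, ⟨hD1, hD2⟩, hyD⟩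
      exact hC ⟨D, hD1, hD2, y, hyD, hyO⟩
  · intro n x hx hxF
    simp only [mem_iUnion] at hx
    obtain ⟨j, _, C, ⟨_, hC⟩, hxC⟩ := hx
    exact hC hxC hxF
  · intro x
    obtain ⟨j, C, hC, hxC⟩ := hEc x
    obtain ⟨-, U, ⟨n, rfl⟩, hCU⟩ := hE j C hC
    refine ⟨max j n, ?_⟩
    simp only [mem_iUnion]
    refine ⟨j, le_max_left j n, C, ⟨hC, ?_⟩, hxC⟩
    intro y hy hyF
    exact hCU hy (hanti _ _ (le_max_right j n) hyF)

/-- the factors: the Baire space, then countably many copies of ω + 1 -/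
def Fac : ℕ → Type
  | 0 => ℕ → ℕ
  | _ + 1 => ℕ∞

instance facTop : ∀ n, TopologicalSpace (Fac n)
  | 0 => inferInstanceAs (TopologicalSpace (ℕ → ℕ))
  | _ + 1 => inferInstanceAs (TopologicalSpace ℕ∞)

lemma facMetrizable : ∀ n, MetrizableSpace (Fac n)
  | 0 => inferInstanceAs (MetrizableSpace (ℕ → ℕ))
  | _ + 1 => inferInstanceAs (MetrizableSpace ℕ∞)

/-- the Baire coordinate -/
def hd (p : Box Fac) : ℕ → ℕ := p 0

/-- the other coordinates -/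
def tl (p : Box Fac) : W := fun k => p (k + 1)

def mk (f : ℕ → ℕ) (x : ℕ → ℕ∞) : Box Fac
  | 0 => f
  | k + 1 => x k

lemma hd_mk (f : ℕ → ℕ) (x : ℕ → ℕ∞) : hd (mk f x) = f := rfl

lemma tl_mk (f : ℕ → ℕ) (x : ℕ → ℕ∞) : tl (mk f x) = x := rfl

lemma isOpen_cyl_box (m : ℕ) (G : ℕ → ℕ) (f : ℕ → ℕ) (x : W) :
    IsOpen {p : Box Fac | (∀ i, i < m → hd p i = f i) ∧ Ext G x (tl p)} := by
  classical
  let U : ∀ n, Set (Fac n)
    | 0 => {f' : ℕ → ℕ | ∀ i, i < m → f' i = f i}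
    | k + 1 => (if x k = ⊤ then Ioi (G k : ℕ∞) else {x k} : Set ℕ∞)
  have h1 : {p : Box Fac | (∀ i, i < m → hd p i = f i) ∧ Ext G x (tl p)} =
      {p : Box Fac | ∀ n, p n ∈ U n} := by
    ext p
    constructor
    · rintro ⟨h1, h2⟩ n
      cases n with
      | zero => exact h1
      | succ k =>
        show p (k + 1) ∈ (if x k = ⊤ then Ioi (G k : ℕ∞) else {x k} : Set ℕ∞)
        by_cases hk : x k = ⊤
        · rw [if_pos hk]; exact (h2 k).2 hk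
        · rw [if_neg hk]; exact (h2 k).1 hk
    · intro h
      refine ⟨h 0, fun k => ?_⟩
      have h3 : p (k + 1) ∈ (if x k = ⊤ then Ioi (G k : ℕ∞) else {x k} : Set ℕ∞) := h (k + 1)
      refine ⟨fun hk => ?_, fun hk => ?_⟩
      · rw [if_neg hk] at h3; exact h3
      · rw [if_pos hk] at h3; exact h3
  rw [h1]
  apply isOpen_box
  intro n
  cases n with
  | zero => exact isOpen_cyl m f
  | succ k =>
    show IsOpen (if x k = ⊤ then Ioi (G k : ℕ∞) else {x k} : Set ℕ∞)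
    by_cases hk : x k = ⊤
    · rw [if_pos hk]; exact isOpen_Ioi
    · rw [if_neg hk]; exact ENat.isOpen_singleton hk

lemma exists_cyl_box {O : Set (Box Fac)} (hO : IsOpen O) {p : Box Fac} (hp : p ∈ O) :
    ∃ (m : ℕ) (G : ℕ → ℕ), ∀ q : Box Fac, (∀ i, i < m → hd q i = hd p i) → Ext G (tl p) (tl q) →
      q ∈ O := by
  obtain ⟨U, hU, hpU, hUO⟩ := box_basis hO hp
  have hu : IsOpen (U 0 : Set (ℕ → ℕ)) := hU 0
  obtain ⟨I, w, hw, hwu⟩ := isOpen_pi_iff.mp hu (hd p) (hpU 0)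
  have h : ∀ k, ∃ n : ℕ, tl p k = ⊤ → ∀ y : ℕ∞, (n : ℕ∞) < y → y ∈ (U (k + 1) : Set ℕ∞) := by
    intro k
    by_cases hk : tl p k = ⊤
    · have ho : IsOpen (U (k + 1) : Set ℕ∞) := hU (k + 1)
      have h1 : (U (k + 1) : Set ℕ∞) ∈ 𝓝 (⊤ : ℕ∞) := by
        apply ho.mem_nhds
        rw [← hk]
        exact hpU (k + 1)
      obtain ⟨a, ha, hau⟩ := nhds_top_basis.mem_iff.mp h1
      obtain ⟨n, rfl⟩ := ENat.ne_top_iff_exists.mp ha.ne
      exact ⟨n, fun _ y hy => hau hy⟩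
    · exact ⟨0, fun h => absurd h hk⟩
  choose G hG using h
  refine ⟨I.sup id + 1, G, fun q h1 h2 => hUO ?_⟩
  intro n
  cases n with
  | zero =>
    apply hwu
    intro i hi
    have h3 : i ≤ I.sup id := Finset.le_sup (f := id) hi
    show hd q i ∈ w i
    rw [h1 i (by omega)]
    exact (hw i hi).2
  | succ k =>
    show tl q k ∈ (U (k + 1) : Set ℕ∞)
    by_cases hk : tl p k = ⊤
    · exact hG k hk _ ((h2 k).2 hk)
    · rw [(h2 k).1 hk]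
      exact hpU (k + 1)

lemma ext_pt {X Y : Gr} (hX : Func X) (hY : Func Y) (hXY : X ⊆ Y) {G : ℕ → ℕ}
    (h : ∀ k c, (k, c) ∈ Y → (∀ c', (k, c') ∉ X) → G k < c) :
    Ext G (pt X) (pt Y) := by
  intro k
  constructor
  · intro hk
    obtain ⟨c, hc⟩ := pt_ne_top hk
    rw [pt_of_mem hX hc, pt_of_mem hY (hXY hc)]
  · intro hk
    by_cases hex : ∃ c, (k, c) ∈ Y
    · obtain ⟨c, hc⟩ := hex
      rw [pt_of_mem hY hc]
      have h1 : ∀ c', (k, c') ∉ X := by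
        intro c' hc'
        rw [pt_of_mem hX hc'] at hk
        exact ENat.natCast_ne_top _ hk
      exact_mod_cast h k c hc h1
    · push Not at hex
      rw [pt_of_notMem hex]
      exact ENat.natCast_lt_top _

def Fb (n : ℕ) : Set (Box Fac) := {p | E1 n (hd p) (tl p)}

lemma Fb_closed (n : ℕ) : IsClosed (Fb n) := by
  rw [← isOpen_compl_iff, isOpen_iff_forall_mem_open]
  intro p hp
  obtain ⟨m, G, hG⟩ := E1_closed (n := n) (f := hd p) (x := tl p) hp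
  refine ⟨{q : Box Fac | (∀ i, i < m → hd q i = hd p i) ∧ Ext G (tl p) (tl q)}, ?_,
    isOpen_cyl_box m G (hd p) (tl p), ?_⟩
  · rintro q ⟨h1, h2⟩
    exact hG (hd q) (tl q) h1 h2
  · refine ⟨fun i _ => rfl, fun k => ⟨fun _ => rfl, fun hk => ?_⟩⟩
    exact lt_of_lt_of_eq (ENat.natCast_lt_top (G k)) hk.symm

lemma Fb_anti (m n : ℕ) (h : m ≤ n) : Fb n ⊆ Fb m := by
  rintro p ⟨l, β, h1, h2⟩
  exact ⟨l, β, h.trans h1, h2⟩

lemma Fb_cov (p : Box Fac) : ∃ n, p ∉ Fb n := by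
  by_contra hc
  push Not at hc
  obtain ⟨l, β, -, h1⟩ := hc 0
  obtain ⟨l', β', h2, h3⟩ := hc (l + 1)
  have := (h1.l_eq h3).1
  omega

lemma Fb_bad (N : Box Fac → Set (Box Fac)) (hN : ∀ p, IsOpen (N p) ∧ p ∈ N p) :
    ∃ q, ∀ n, ∃ p, p ∈ Fb n ∧ q ∈ N p := by
  classical
  have hc := fun p : Box Fac => exists_cyl_box (hN p).1 (hN p).2
  choose m G hmG using hc
  obtain ⟨e, Y, hY, h⟩ := player (fun f X => m (mk f (pt X))) (fun f X k => G (mk f (pt X)) k)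
  refine ⟨mk e (pt Y), ?_⟩
  intro n
  obtain ⟨f, X, l, β, h1, hX, h2, h3, h4, h5, -, -⟩ := h n
  refine ⟨mk f (pt X), ⟨l, β, h1, ?_⟩, ?_⟩
  · show Ev f (gr (pt X)) l β
    rw [gr_pt hX]; exact h2
  · exact hmG (mk f (pt X)) (mk e (pt Y)) h3 (ext_pt hX hY h4 h5)

theorem not_metacompact : ¬ IsMetacompact (Box Fac) := fun h =>
  not_shrinks Fb Fb_anti Fb_cov Fb_bad (shrinks_of_metacompact h Fb Fb_closed Fb_anti Fb_cov)

theorem not_subparacompact : ¬ IsSubparacompact (Box Fac) := fun h =>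
  not_shrinks Fb Fb_anti Fb_cov Fb_bad (shrinks_of_subparacompact h Fb Fb_closed Fb_anti Fb_cov)

end Pool.Agent.BoxOrtho
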