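import Pool.Agent.BoxOrtho.Pigeon

namespace Pool.Agent.BoxOrtho

open Set

noncomputable def sl (s : ℕ) : List ℕ := ((Encodable.decode s : Option (List ℕ))).getD []

lemma sl_encode (L : List ℕ) : sl (Encodable.encode L) = L := by simp [sl]

noncomputable def sf (s : ℕ) (i : ℕ) : ℕ := (sl s).getD i 0

noncomputable def sI (s : ℕ) : ℕ := (sl s).length

structure Full (B : Finset ℕ) (P : Cond) : Prop where
  func : Func P.Z
  inf : InfS P.S
  free : Free P
  msgs : ∀ k c, (k, c) ∈ P.Z → msg c = ∅ ∨ ∃ e w z, (e, w) ∈ msg c ∧ (e, z) ∈ P.Z ∧ w ≠ z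
  E_sub : ∀ k, ∀ x ∈ P.E k, x ∈ P.Z ∧ x.1 ∉ B

structure StageOK (g : (ℕ → ℕ) → Gr → ℕ → ℕ) (B : Finset ℕ) (P : Cond) (j : ℕ)
    (l v i : ℕ) (Q P' : Cond) : Prop where
  ji : j ≤ i
  κi : P.κ ≤ i
  il : i ≤ l
  fresh : ∀ c, (l, c) ∉ P.Z
  leQP : Le Q P
  hb : Hb l B P.Z Q
  good : ∀ k c, (k, c) ∈ Q.Z → (k, c) ∉ P.Z → Good l B v Q.Z c
  cert : ∀ s, s ≤ i → ∀ a : Finset (ℕ × ℕ), (∀ x ∈ a, x.1 < i ∧ x.2 ≤ i) →
    ∃ N, N < v ∧ Cert g l B P.Z (sf s) (sI s) (a : Set (ℕ × ℕ)) i N Q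
  msgv : msg v = ∅
  Z_eq : P'.Z = Q.Z ∪ {(l, v)}
  G_eq : P'.G = Q.G
  E_eq : P'.E = Q.E
  κ_le : Q.κ ≤ P'.κ
  le : Le P' P
  full : Full (insert l B) P'
  S_sub : P'.S ⊆ Q.S
  interval : ∃ J, J ∈ P'.S ∧ l < J.1 ∧ J.2 ≤ P'.κ
  jκ : j < P'.κ

lemma stage (g : (ℕ → ℕ) → Gr → ℕ → ℕ) (B : Finset ℕ) (P : Cond) (hP : Full B P) (j : ℕ) :
    ∃ (l v i : ℕ) (Q P' : Cond), StageOK g B P j l v i Q P' := by
  classical
  obtain ⟨J0, hJ0, hJ0n⟩ := hP.inf (P.κ + j + 1)
  obtain ⟨l, hl1, hl2, hl3⟩ := hP.free J0 hJ0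
  let i := P.κ + j + 1
  have hil : i ≤ l := hJ0n.trans hl1
  let p : Cond := ⟨P.Z, P.G, P.E, i, P.S⟩
  have hpP : Le p P := by
    refine ⟨subset_rfl, fun k c h1 h2 => absurd h1 h2, fun k _ => le_rfl, fun k _ x hx => hx,
      ?_, fun J hJ => ⟨J, hJ, le_rfl, le_rfl, fun k c h => absurd h.1 h.2⟩⟩
    show P.κ ≤ P.κ + j + 1
    omega
  have hpb : Hb l B P.Z p := by
    refine ⟨hP.func, hP.inf, hP.free.le hpP, hl3, hP.E_sub, 0, ?_⟩
    intro k c h1 h2
    exact absurd h1 h2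
  let F : Finset (ℕ × Finset (ℕ × ℕ)) :=
    (Finset.range (i + 1)) ×ˢ ((Finset.range i ×ˢ Finset.range (i + 1)).powerset)
  obtain ⟨Q, N, hQp, hQb, hcert⟩ := pigeonhole_finset g (l := l) (B := B) (Zs := P.Z) F
    (fun s => sf s.1) (fun s => sI s.1) (fun s => (s.2 : Set (ℕ × ℕ))) i
    (by
      intro s hs k c hkc
      have h1 := (Finset.mem_product.mp hs).2
      have h2 := Finset.mem_powerset.mp h1
      have h3 := h2 (Finset.mem_coe.mp hkc)
      exact Finset.mem_range.mp (Finset.mem_product.mp h3).1) hil hP.msgs hpb le_rfl subset_rfl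
  obtain ⟨ν, hν⟩ := hQb.good
  obtain ⟨v, hv1, hv2⟩ := exists_msg ∅ (N + ν + Q.G l + P.G l)
  let S' : Set (ℕ × ℕ) := {J | J ∈ Q.S ∧ l + v < J.1}
  have hinf : InfS S' := by
    intro m
    obtain ⟨J, hJ, hJm⟩ := hQb.inf (m + l + v + 1)
    exact ⟨J, ⟨hJ, by omega⟩, by omega⟩
  obtain ⟨J, hJ, hJn⟩ := hinf 0
  let P' : Cond := ⟨Q.Z ∪ {(l, v)}, Q.G, Q.E, Q.κ + J.2 + j + 1, S'⟩
  have hQP : Le Q P := hQp.trans hpP
  have hle : Le P' P := by
    refine ⟨hQP.sub.trans subset_union_left, ?_, ?_, ?_, ?_, ?_⟩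
    · intro k c h1 h2
      rcases h1 with h1 | h1
      · exact hQP.tail k c h1 h2
      · obtain ⟨rfl, rfl⟩ := Prod.mk.inj (show (k, c) = (l, v) from h1)
        refine ⟨?_, by omega, Or.inl hv2⟩
        have : P.κ ≤ i := by show P.κ ≤ P.κ + j + 1; omega
        omega
    · intro k hk
      apply hQP.G_le k
      have : Q.κ + J.2 + j + 1 ≤ k := hk
      omega
    · intro k hk
      apply hQP.E_le k
      have : Q.κ + J.2 + j + 1 ≤ k := hk
      omega
    · have h1 := hQP.κ_le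
      show P.κ ≤ Q.κ + J.2 + j + 1
      omega
    · intro J' hJ'
      obtain ⟨J'', h1, h2, h3, h4⟩ := hQP.S_le J' hJ'.1
      refine ⟨J'', h1, h2, h3, ?_⟩
      intro k c h
      rcases h.1 with h5 | h5
      · exact h4 k c ⟨h5, h.2⟩
      · obtain ⟨rfl, rfl⟩ := Prod.mk.inj (show (k, c) = (l, v) from h5)
        left
        have := hJ'.2
        omega
  refine ⟨l, v, i, Q, P', ?_⟩
  refine
    { ji := by show j ≤ P.κ + j + 1; omega
      κi := by show P.κ ≤ P.κ + j + 1; omega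
      il := hil
      fresh := hl3
      leQP := hQP
      hb := hQb
      good := fun k c h1 h2 => (hν k c h1 h2).mono (by omega) subset_rfl
      cert := ?_
      msgv := hv2
      Z_eq := rfl
      G_eq := rfl
      E_eq := rfl
      κ_le := by show Q.κ ≤ Q.κ + J.2 + j + 1; omega
      le := hle
      full := ?_
      S_sub := fun J hJ => hJ.1
      interval := ⟨J, hJ, by have := hJ.2; omega, by show J.2 ≤ Q.κ + J.2 + j + 1; omega⟩
      jκ := by show j < Q.κ + J.2 + j + 1; omega }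
  · intro s hs a ha
    refine ⟨N, by omega, ?_⟩
    apply hcert (s, a)
    refine Finset.mem_product.mpr ⟨Finset.mem_range.mpr (by show s < i + 1; omega), ?_⟩
    apply Finset.mem_powerset.mpr
    intro x hx
    have := ha x hx
    exact Finset.mem_product.mpr ⟨Finset.mem_range.mpr this.1, Finset.mem_range.mpr (by omega)⟩
  · refine ⟨?_, hinf, hP.free.le hle, ?_, ?_⟩
    · intro k c c' h1 h2
      rcases h1 with h1 | h1 <;> rcases h2 with h2 | h2
      · exact hQb.func k c c' h1 h2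
      · obtain ⟨rfl, rfl⟩ := Prod.mk.inj (show (k, c') = (l, v) from h2)
        exact absurd h1 (hQb.nl _)
      · obtain ⟨rfl, rfl⟩ := Prod.mk.inj (show (k, c) = (l, v) from h1)
        exact absurd h2 (hQb.nl _)
      · have e1 := Prod.mk.inj (show (k, c) = (l, v) from h1)
        have e2 := Prod.mk.inj (show (k, c') = (l, v) from h2)
        rw [e1.2, e2.2]
    · intro k c h1
      rcases h1 with h1 | h1
      · by_cases h2 : (k, c) ∈ P.Z
        · rcases hP.msgs k c h2 with h | ⟨e, w, z, h3, h4, h5⟩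
          · exact Or.inl h
          · exact Or.inr ⟨e, w, z, h3, hle.sub h4, h5⟩
        · rcases hν k c h1 h2 with h | ⟨w, h3, h4⟩ | ⟨e, w, z, -, -, h3, h4, h5⟩
          · exact Or.inl h
          · exact Or.inr ⟨l, w, v, h4, Or.inr rfl, by omega⟩
          · exact Or.inr ⟨e, w, z, h3, Or.inl h4, h5⟩
      · obtain ⟨rfl, rfl⟩ := Prod.mk.inj (show (k, c) = (l, v) from h1)
        exact Or.inl hv2
    · intro k x hx
      have h1 := hQb.E_sub k x hx
      refine ⟨Or.inl h1.1, ?_⟩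
      rw [Finset.mem_insert]
      rintro (h2 | h2)
      · apply hQb.nl x.2
        rw [← h2]
        exact h1.1
      · exact h1.2 h2

end Pool.Agent.BoxOrtho
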