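import Pool.Agent.BoxOrtho.Run

namespace Pool.Agent.BoxOrtho

open Set

def rm (p : Cond) (x : ℕ × ℕ) : Cond := ⟨p.Z \ {x}, p.G, p.E, p.κ, p.S⟩

lemma rm_le {q p : Cond} (h : Le q p) {x : ℕ × ℕ} (hx : x ∈ p.Z) : Le (rm q x) (rm p x) := by
  refine ⟨fun y hy => ⟨h.sub hy.1, hy.2⟩, ?_, h.G_le, h.E_le, h.κ_le, ?_⟩
  · intro k c h1 h2
    exact h.tail k c h1.1 (fun h3 => h2 ⟨h3, h1.2⟩)
  · intro J hJ
    obtain ⟨J', h1, h2, h3, h4⟩ := h.S_le J hJ
    refine ⟨J', h1, h2, h3, ?_⟩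
    intro k c hkc
    exact h4 k c ⟨hkc.1.1, fun h5 => hkc.2 ⟨h5, hkc.1.2⟩⟩

namespace Run

variable {g : (ℕ → ℕ) → Gr → ℕ → ℕ} (R : Run g)

structure TS (t : Gr) (b : ℕ) (A : Set ℕ) : Prop where
  func : Func t
  disj : ∀ k c c', (k, c) ∈ t → (k, c') ∉ R.Z
  rule : ∀ u, b ≤ u → ∀ k c, (k, c) ∈ t → (R.P (u + 1)).κ ≤ k →
    (R.P (u + 1)).G k < c ∧
      (msg c = ∅ ∨ ((∀ x ∈ (R.P (u + 1)).E k, x ∈ msg c) ∧ (R.l u, R.v u) ∈ msg c))
  inf : ∀ n, ∃ u, u ∈ A ∧ n ≤ u
  resp : ∀ u, u ∈ A → Resp t (R.i u, (R.P (u + 1)).κ)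

def Zm (u : ℕ) : Gr := R.Z \ {(R.l u, R.v u)}

open Classical in
noncomputable def pc (t : Gr) (A : Set ℕ) (D : ℕ → ℕ) (u : ℕ) : Cond :=
  ⟨R.Zm u ∪ {x | x ∈ t ∧ (R.P (u + 1)).κ ≤ x.1},
   fun k => max (D k) ((Finset.range (k + 1)).sup (fun w => if (R.P w).κ ≤ k then (R.P w).G k else 0)),
   fun k => ((Finset.range (k + 1)).biUnion (fun w => if (R.P w).κ ≤ k then (R.P w).E k else ∅)) ∪
     ((Finset.range (k + 1)).filter (fun w => u < w ∧ (R.P (w + 1)).κ ≤ k)).image
       (fun w => (R.l w, R.v w)),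
   (R.P (u + 1)).κ,
   {J | ∃ w, w ∈ A ∧ u < w ∧ J = (R.i w, (R.P (w + 1)).κ)}⟩

lemma pc_G {t : Gr} {A : Set ℕ} {D : ℕ → ℕ} {u w k : ℕ} (h : (R.P w).κ ≤ k) :
    (R.P w).G k ≤ (R.pc t A D u).G k := by
  have h1 := R.le_κ w
  have h2 : (if (R.P w).κ ≤ k then (R.P w).G k else 0) ≤
      (Finset.range (k + 1)).sup (fun w => if (R.P w).κ ≤ k then (R.P w).G k else 0) :=
    Finset.le_sup (f := fun w => if (R.P w).κ ≤ k then (R.P w).G k else 0)
      (Finset.mem_range.mpr (by omega))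
  rw [if_pos h] at h2
  exact h2.trans (le_max_right _ _)

lemma pc_E {t : Gr} {A : Set ℕ} {D : ℕ → ℕ} {u w k : ℕ} (h : (R.P w).κ ≤ k)
    {x : ℕ × ℕ} (hx : x ∈ (R.P w).E k) : x ∈ (R.pc t A D u).E k := by
  classical
  have h1 := R.le_κ w
  apply Finset.mem_union_left
  apply Finset.mem_biUnion.mpr
  exact ⟨w, Finset.mem_range.mpr (by omega), by rw [if_pos h]; exact hx⟩

lemma pc_lv {t : Gr} {A : Set ℕ} {D : ℕ → ℕ} {u w k : ℕ} (huw : u < w)
    (h : (R.P (w + 1)).κ ≤ k) : (R.l w, R.v w) ∈ (R.pc t A D u).E k := by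
  classical
  have h1 := R.le_κ (w + 1)
  apply Finset.mem_union_right
  apply Finset.mem_image.mpr
  exact ⟨w, Finset.mem_filter.mpr ⟨Finset.mem_range.mpr (by omega), huw, h⟩, rfl⟩

lemma lv_notMem_Q (u : ℕ) (c : ℕ) : (R.l u, c) ∉ (R.Q u).Z := (R.ok u).hb.nl c

lemma rm_le_Q {u m : ℕ} (h : u < m) : Le (rm (R.P m) (R.l u, R.v u)) (R.Q u) := by
  induction m, (show u + 1 ≤ m from h) using Nat.le_induction with
  | base =>
    have ok := R.ok u
    have hZ : (rm (R.P (u + 1)) (R.l u, R.v u)).Z = (R.Q u).Z := by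
      show (R.P (u + 1)).Z \ {(R.l u, R.v u)} = (R.Q u).Z
      rw [ok.Z_eq]
      ext x
      constructor
      · rintro ⟨h1 | h1, h2⟩
        · exact h1
        · exact absurd h1 h2
      · intro h1
        refine ⟨Or.inl h1, ?_⟩
        rintro rfl
        exact R.lv_notMem_Q u _ h1
    refine ⟨hZ.symm.subset, ?_, ?_, ?_, ok.κ_le, ?_⟩
    · intro k c h1 h2
      rw [hZ] at h1
      exact absurd h1 h2
    · intro k _
      exact (congrFun ok.G_eq k).symm.le
    · intro k _ x hx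
      show x ∈ (R.P (u + 1)).E k
      rw [ok.E_eq]; exact hx
    · intro J hJ
      refine ⟨J, ok.S_sub hJ, le_rfl, le_rfl, ?_⟩
      intro k c h1
      rw [hZ] at h1
      exact absurd h1.1 h1.2
  | succ m hm ih =>
    exact (rm_le (R.ok m).le ((R.mono hm).sub (R.lv_mem' u))).trans (ih (by omega))

lemma mem_Zm {u : ℕ} {x : ℕ × ℕ} (h : x ∈ R.Zm u) :
    ∃ m, u < m ∧ x ∈ (rm (R.P m) (R.l u, R.v u)).Z := by
  obtain ⟨n, hn⟩ := R.mem_Z h.1
  exact ⟨max n (u + 1), by omega, (R.mono (le_max_left _ _)).sub hn, h.2⟩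

lemma pc_le {t : Gr} {b : ℕ} {A : Set ℕ} (ht : R.TS t b A) (D : ℕ → ℕ) {u : ℕ} (hu : b ≤ u) :
    Le (R.pc t A D u) (R.Q u) := by
  have ok := R.ok u
  have h0 := R.rm_le_Q (Nat.lt_succ_self u)
  refine ⟨?_, ?_, ?_, ?_, ok.κ_le, ?_⟩
  · intro x hx
    left
    refine ⟨R.sub_Z (u + 1) ?_, ?_⟩
    · rw [ok.Z_eq]; exact Or.inl hx
    · rintro rfl
      exact R.lv_notMem_Q u _ hx
  · intro k c h1 h2
    rcases h1 with h1 | h1
    · obtain ⟨m, hm, hx⟩ := R.mem_Zm h1
      exact (R.rm_le_Q hm).tail k c hx h2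
    · have h3 := ht.rule u hu k c h1.1 h1.2
      refine ⟨ok.κ_le.trans h1.2, ?_, ?_⟩
      · rw [← ok.G_eq]; exact h3.1
      · rcases h3.2 with h4 | h4
        · exact Or.inl h4
        · right
          rw [← ok.E_eq]
          exact h4.1
  · intro k hk
    rw [← ok.G_eq]
    exact R.pc_G hk
  · intro k hk x hx
    rw [← ok.E_eq] at hx
    exact R.pc_E hk hx
  · rintro J ⟨w, hwA, huw, rfl⟩
    obtain ⟨Jh, hJh, hJ1, hJ2⟩ := (R.ok w).interval
    obtain ⟨J', hJ', a1, a2, a3⟩ := (R.rm_le_Q (show u < w + 1 by omega)).S_le Jh hJh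
    have hi : R.i w ≤ J'.1 := by
      have := (R.ok w).il
      omega
    refine ⟨J', hJ', hi, a2.trans hJ2, ?_⟩
    intro k c hkc
    rcases hkc.1 with h1 | h1
    · by_cases h2 : (k, c) ∈ (R.P (w + 1)).Z
      · exact a3 k c ⟨⟨h2, h1.2⟩, hkc.2⟩
      · right
        have := R.coord h1.1 h2
        exact (a2.trans hJ2).trans this
    · rcases ht.resp w hwA k c h1.1 with ⟨h2, h3⟩ | h2
      · exact Or.inl ⟨lt_of_lt_of_le h2 hi, h3.trans hi⟩
      · exact Or.inr ((a2.trans hJ2).trans h2)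

lemma pc_hb {t : Gr} {b : ℕ} {A : Set ℕ} (ht : R.TS t b A) (D : ℕ → ℕ) {u : ℕ} (hu : b ≤ u) :
    Hb (R.l u) (R.B u) (R.P u).Z (R.pc t A D u) := by
  classical
  have ok := R.ok u
  have hZl : ∀ c, (R.l u, c) ∉ R.Zm u := by
    intro c hc
    exact hc.2 (by rw [R.l_unique hc.1]; rfl)
  refine ⟨?_, ?_, ok.hb.free.le (R.pc_le ht D hu), ?_, ?_, ?_⟩
  · intro k c c' h1 h2
    rcases h1 with h1 | h1 <;> rcases h2 with h2 | h2
    · exact R.funcZ k c c' h1.1 h2.1
    · exact absurd h1.1 (ht.disj k c' c h2.1)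
    · exact absurd h2.1 (ht.disj k c c' h1.1)
    · exact ht.func k c c' h1.1 h2.1
  · intro n
    obtain ⟨w, hw, hnw⟩ := ht.inf (max n (u + 1))
    refine ⟨(R.i w, (R.P (w + 1)).κ), ⟨w, hw, by omega, rfl⟩, ?_⟩
    have := (R.ok w).ji
    show n ≤ R.i w
    omega
  · intro c hc
    rcases hc with hc | hc
    · exact hZl c hc
    · exact ht.disj _ _ _ hc.1 (R.lv_mem u)
  · intro k x hx
    rcases Finset.mem_union.mp hx with hx | hx
    · obtain ⟨w, -, hxw⟩ := Finset.mem_biUnion.mp hx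
      by_cases hc : (R.P w).κ ≤ k
      · rw [if_pos hc] at hxw
        have h1 := R.E_avoid hxw
        refine ⟨Or.inl ⟨R.sub_Z _ h1.1, ?_⟩, ?_⟩
        · intro h2
          exact h1.2 u (congrArg Prod.fst (mem_singleton_iff.mp h2))
        · intro h2
          obtain ⟨m, -, hm⟩ := R.mem_B h2
          exact h1.2 m hm
      · rw [if_neg hc] at hxw
        exact absurd hxw (Finset.notMem_empty _)
    · obtain ⟨w, hw, rfl⟩ := Finset.mem_image.mp hx
      have hw' := (Finset.mem_filter.mp hw).2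
      refine ⟨Or.inl ⟨R.lv_mem w, ?_⟩, ?_⟩
      · intro h2
        have := R.l_inj (congrArg Prod.fst (mem_singleton_iff.mp h2))
        omega
      · intro h2
        obtain ⟨m, hm1, hm2⟩ := R.mem_B h2
        have := R.l_inj hm2
        omega
  · refine ⟨R.v u + 1, ?_⟩
    intro k c h1 h2
    rcases h1 with h1 | h1
    · obtain ⟨w, huw, h3, h4⟩ := R.classify h1.1 h2
      rcases h4 with h4 | h4
      · have h5 := (R.ok w).good k c h4 h3
        rcases Nat.eq_or_lt_of_le huw with h6 | h6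
        · subst h6
          refine h5.mono (Nat.le_succ _) ?_
          intro x hx
          left
          refine ⟨R.sub_Z (u + 1) ?_, ?_⟩
          · rw [ok.Z_eq]; exact Or.inl hx
          · rintro rfl
            exact R.lv_notMem_Q u _ hx
        · rcases h5 with h5 | ⟨w', h5, h7⟩ | ⟨e, w', z, h5, h7, h8, h9, h10⟩
          · exact Or.inl h5
          · refine Or.inr (Or.inr ⟨R.l w, w', R.v w, ?_, ?_, h7, ?_, by omega⟩)
            · intro h8
              obtain ⟨m, hm1, hm2⟩ := R.mem_B h8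
              have := R.l_inj hm2
              omega
            · intro h8
              have := R.l_inj h8
              omega
            · left
              refine ⟨R.lv_mem w, ?_⟩
              intro h8
              have := R.l_inj (congrArg Prod.fst (mem_singleton_iff.mp h8))
              omega
          · have hne : e ≠ R.l u := by
              rintro rfl
              exact h5 (R.l_mem_B h6)
            refine Or.inr (Or.inr ⟨e, w', z, fun h11 => h5 (R.B_mono huw h11), hne, h8, ?_, h10⟩)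
            left
            refine ⟨R.sub_Z (w + 1) ?_, ?_⟩
            · rw [(R.ok w).Z_eq]; exact Or.inl h9
            · intro h11
              exact hne (congrArg Prod.fst (mem_singleton_iff.mp h11))
      · left
        rw [(Prod.mk.inj h4).2]
        exact (R.ok w).msgv
    · rcases (ht.rule u hu k c h1.1 h1.2).2 with h3 | h3
      · exact Or.inl h3
      · exact Or.inr (Or.inl ⟨R.v u, Nat.lt_succ_self _, h3.2⟩)

/-- uniqueness of the missing coordinate -/
def Uniq (X : Gr) (l : ℕ) : Prop :=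
  ∀ l', (∀ v i, ∃ k, i ≤ k ∧ Kill X l' v k) → l' = l

open Classical in
noncomputable def cut (t : Gr) (m : ℕ) : Finset (ℕ × ℕ) :=
  (Finset.range m ×ˢ Finset.range (m + 1)).filter (fun x => x ∈ t)

lemma step {t : Gr} {b : ℕ} {A : Set ℕ} (ht : R.TS t b A) (D : ℕ → ℕ) {u : ℕ} (hu : b ≤ u)
    (huA : u ∈ A) {s : ℕ} (hs : s ≤ u) (hsupp : Supp (sf s) (sI s) (R.Zm u ∪ t)) :
    ∃ t' A' f, R.TS t' (u + 1) A' ∧ t ⊆ t' ∧ (∀ k c, (k, c) ∈ t' → (k, c) ∉ t → D k < c) ∧
      (∀ i, i < sI s → f i = sf s i) ∧ Ev f (R.Zm u ∪ t') (R.l u) (R.i u) ∧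
      g f (R.Zm u ∪ t') (R.l u) < R.v u ∧ Uniq (R.Zm u ∪ t') (R.l u) ∧
      (∀ c, (R.l u, c) ∉ R.Zm u ∪ t') := by
  classical
  have ok := R.ok u
  let a := cut t (R.i u)
  have ha_mem : ∀ x, x ∈ a ↔ x ∈ t ∧ x.1 < R.i u := by
    intro x
    constructor
    · intro hx
      have h1 := Finset.mem_filter.mp hx
      exact ⟨h1.2, Finset.mem_range.mp (Finset.mem_product.mp h1.1).1⟩
    · rintro ⟨h1, h2⟩
      apply Finset.mem_filter.mpr
      refine ⟨Finset.mem_product.mpr ⟨Finset.mem_range.mpr h2, Finset.mem_range.mpr ?_⟩, h1⟩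
      rcases ht.resp u huA x.1 x.2 h1 with ⟨_, h3⟩ | h3
      · exact Nat.lt_succ_of_le h3
      · have h4 := R.l_lt_κ u
        have h5 := ok.il
        have h6 : (R.P (u + 1)).κ ≤ x.1 := h3
        omega
  have hset : ∀ W : Gr, R.Zm u ∪ {x | x ∈ t ∧ (R.P (u + 1)).κ ≤ x.1} ⊆ W →
      W ∪ (a : Set (ℕ × ℕ)) = W ∪ t := by
    intro W hW
    ext x
    constructor
    · rintro (h | h)
      · exact Or.inl h
      · exact Or.inr ((ha_mem x).mp (Finset.mem_coe.mp h)).1
    · rintro (h | h)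
      · exact Or.inl h
      · rcases ht.resp u huA x.1 x.2 h with ⟨h1, _⟩ | h1
        · exact Or.inr (Finset.mem_coe.mpr ((ha_mem x).mpr ⟨h, h1⟩))
        · exact Or.inl (hW (Or.inr ⟨h, h1⟩))
  have hpcZ : (R.pc t A D u).Z = R.Zm u ∪ {x | x ∈ t ∧ (R.P (u + 1)).κ ≤ x.1} := rfl
  have hpc_union : (R.pc t A D u).Z ∪ (a : Set (ℕ × ℕ)) = R.Zm u ∪ t := by
    rw [hset _ hpcZ.symm.subset, hpcZ]
    ext x
    constructor
    · rintro ((h | h) | h)
      · exact Or.inl h
      · exact Or.inr h.1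
      · exact Or.inr h
    · rintro (h | h)
      · exact Or.inl (Or.inl h)
      · exact Or.inr h
  have hfunc : Func (R.Zm u ∪ t) := by
    intro k c c' h1 h2
    rcases h1 with h1 | h1 <;> rcases h2 with h2 | h2
    · exact R.funcZ k c c' h1.1 h2.1
    · exact absurd h1.1 (ht.disj k c' c h2)
    · exact absurd h2.1 (ht.disj k c c' h1)
    · exact ht.func k c c' h1 h2
  obtain ⟨N, hN, hcert⟩ := ok.cert s (hs.trans ok.ji) a (by
    intro x hx
    have h1 := Finset.mem_filter.mp hx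
    have h2 := Finset.mem_product.mp h1.1
    have h3 := Finset.mem_range.mp h2.1
    have h4 := Finset.mem_range.mp h2.2
    exact ⟨h3, by omega⟩)
  obtain ⟨q, f, hO⟩ := hcert _ (R.pc_le ht D hu) (R.pc_hb ht D hu) (by rw [hpc_union]; exact hfunc)
    (by rw [hpc_union]; exact hsupp)
  have hle := hO.le
  let t' : Gr := t ∪ (q.Z \ (R.pc t A D u).Z)
  have hqa : q.Z ∪ (a : Set (ℕ × ℕ)) = R.Zm u ∪ t' := by
    rw [hset q.Z (hpcZ.symm.subset.trans hle.sub)]
    ext x
    constructor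
    · rintro (h | h)
      · by_cases hx : x ∈ (R.pc t A D u).Z
        · rcases hx with hx | hx
          · exact Or.inl hx
          · exact Or.inr (Or.inl hx.1)
        · exact Or.inr (Or.inr ⟨h, hx⟩)
      · exact Or.inr (Or.inl h)
    · rintro (h | h | h)
      · exact Or.inl (hle.sub (Or.inl h))
      · exact Or.inr h
      · exact Or.inl h.1
  have hQfunc : Func (R.Zm u ∪ t') := by rw [← hqa]; exact hO.func
  have hnl : ∀ c, (R.l u, c) ∉ R.Zm u ∪ t' := by
    intro c hc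
    rw [← hqa] at hc
    rcases hc with hc | hc
    · exact hO.nl c hc
    · have h1 := ((ha_mem _).mp (Finset.mem_coe.mp hc)).2
      have h2 := ok.il
      have h3 : R.l u < R.i u := h1
      omega
  have hev : Ev f (R.Zm u ∪ t') (R.l u) (R.i u) := by rw [← hqa]; exact hO.ev
  refine ⟨t', {w | w ∈ A ∧ u < w ∧ Resp (q.Z \ (R.pc t A D u).Z) (R.i w, (R.P (w + 1)).κ)}, f,
    ?_, subset_union_left, ?_, hO.agree, hev, ?_, ?_, hnl⟩
  · refine ⟨?_, ?_, ?_, ?_, ?_⟩
    · intro k c c' h1 h2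
      exact hQfunc k c c' (Or.inr h1) (Or.inr h2)
    · intro k c c' h1 h2
      rcases h1 with h1 | h1
      · exact ht.disj k c c' h1 h2
      · by_cases h3 : (k, c') ∈ R.Zm u
        · have h4 : c = c' := hQfunc k c c' (Or.inr (Or.inr h1)) (Or.inl h3)
          subst h4
          exact h1.2 (Or.inl h3)
        · have h4 : (k, c') = (R.l u, R.v u) := by
            by_contra h5
            exact h3 ⟨h2, h5⟩
          have h5 : k = R.l u := (Prod.mk.inj h4).1
          apply hnl c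
          rw [← h5]
          exact Or.inr (Or.inr h1)
    · intro w hw k c h1 h2
      rcases h1 with h1 | h1
      · exact ht.rule w (by omega) k c h1 h2
      · have h3 := hle.tail k c h1.1 h1.2
        refine ⟨lt_of_le_of_lt (R.pc_G h2) h3.2.1, ?_⟩
        rcases h3.2.2 with h4 | h4
        · exact Or.inl h4
        · right
          refine ⟨fun x hx => h4 x (R.pc_E h2 hx), h4 _ (R.pc_lv (by omega) h2)⟩
    · intro n
      obtain ⟨J, hJ, hJn⟩ := hO.inf (R.i n + (R.P (n + 1)).κ + 1)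
      obtain ⟨J', ⟨w, hwA, huw, rfl⟩, a1, a2, a3⟩ := hle.S_le J hJ
      refine ⟨w, ⟨hwA, huw, a3⟩, ?_⟩
      by_contra hc
      have h5 : (R.P w).κ ≤ (R.P n).κ := (R.mono (by omega : w ≤ n)).κ_le
      have h6 := (R.mono (Nat.le_succ n)).κ_le
      have h7 := R.l_lt_κ w
      have h8 := (R.ok w).il
      have h9 : J.1 ≤ R.i w := a1
      have h10 : (R.P (w + 1)).κ ≤ (R.P (n + 1)).κ := (R.mono (by omega : w + 1 ≤ n + 1)).κ_le
      omega
    · intro w hw k c h1
      rcases h1 with h1 | h1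
      · exact ht.resp w hw.1 k c h1
      · exact hw.2.2 k c h1
  · intro k c h1 h2
    rcases h1 with h1 | h1
    · exact absurd h1 h2
    · have h3 := (hle.tail k c h1.1 h1.2).2.1
      exact lt_of_le_of_lt (le_max_left _ _) h3
  · rw [← hqa]
    exact lt_of_le_of_lt hO.bound hN
  · intro l' hl'
    by_contra hne
    have hquiet := hev.2.2
    by_cases hdom : ∃ z, (l', z) ∈ R.Zm u ∪ t'
    · obtain ⟨z, hz⟩ := hdom
      obtain ⟨k, hk, c, h1, h2, h3⟩ := hl' z (R.i u)
      refine hquiet k c h1 hk ⟨_, h2⟩ ?_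
      intro x hx
      by_cases h4 : x = (l', z)
      · rw [h4]; exact hz
      · exact h3 x hx h4
    · push Not at hdom
      obtain ⟨k, hk, c, h1, h2, h3⟩ := hl' 0 (R.i u)
      rw [← hqa] at h1
      have h4 : (k, c) ∈ q.Z := by
        rcases h1 with h1 | h1
        · exact h1
        · have h5 := ((ha_mem _).mp (Finset.mem_coe.mp h1)).2
          exact absurd h5 (not_lt.mpr hk)
      have conf : ∀ e w z, (e, w) ∈ msg c → (e, z) ∈ q.Z → w ≠ z → False := by
        intro e w z h5 h6 h7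
        have h8 : (e, z) ∈ R.Zm u ∪ t' := by rw [← hqa]; exact Or.inl h6
        have h9 : (e, w) ≠ (l', 0) := by
          intro h10
          apply hdom z
          rw [← (Prod.mk.inj h10).1]
          exact h8
        exact h7 (hQfunc e w z (h3 _ h5 h9) h8)
      by_cases h5 : (k, c) ∈ (R.P u).Z
      · rcases (R.fl u).msgs k c h5 with h6 | ⟨e, w, z, h6, h7, h8⟩
        · rw [h6] at h2; exact absurd h2 (Finset.notMem_empty _)
        · exact conf e w z h6 (hle.sub (Or.inl ⟨R.sub_Z u h7, by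
            intro h9
            have h10 : (e, z) = (R.l u, R.v u) := h9
            exact ok.fresh z (by rw [← (Prod.mk.inj h10).1]; exact h7)⟩)) h8
      · rcases hO.goodInf k c h4 h5 with h6 | ⟨w, h6⟩ | ⟨e, w, z, -, h6, h7, h8⟩
        · rw [h6] at h2; exact absurd h2 (Finset.notMem_empty _)
        · apply hnl w
          apply h3 _ h6
          intro h7
          exact hne (Prod.mk.inj h7).1.symm
        · exact conf e w z h6 h7 h8

end Run

end Pool.Agent.BoxOrtho
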