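import Pool.Agent.BoxOrtho.Player
import Pool.Agent.BoxOrtho.Defs

namespace Pool.Agent.BoxOrtho

open Set TopologicalSpace Topology

lemma isOpen_box {ι : Type} {X : ι → Type} [∀ i, TopologicalSpace (X i)] (U : ∀ i, Set (X i))
    (hU : ∀ i, IsOpen (U i)) : IsOpen {x : Box X | ∀ i, x i ∈ U i} :=
  isOpen_generateFrom_of_mem ⟨U, hU, rfl⟩

lemma box_basis {ι : Type} {X : ι → Type} [∀ i, TopologicalSpace (X i)] {O : Set (Box X)}
    (hO : IsOpen O) {x : Box X} (hx : x ∈ O) :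
    ∃ U : ∀ i, Set (X i), (∀ i, IsOpen (U i)) ∧ (∀ i, x i ∈ U i) ∧
      {y : Box X | ∀ i, y i ∈ U i} ⊆ O := by
  let r : Set (Set (Box X)) :=
    {s | ∃ U : ∀ i, Set (X i), (∀ i, IsOpen (U i)) ∧ s = {x : Box X | ∀ i, x i ∈ U i}}
  have hb : IsTopologicalBasis (insert univ r) := by
    refine isTopologicalBasis_of_subbasis_of_inter rfl ?_
    rintro s ⟨U, hU, rfl⟩ t ⟨V, hV, rfl⟩
    refine ⟨fun i => U i ∩ V i, fun i => (hU i).inter (hV i), ?_⟩
    ext y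
    exact ⟨fun h i => ⟨h.1 i, h.2 i⟩, fun h => ⟨fun i => (h i).1, fun i => (h i).2⟩⟩
  obtain ⟨s, hs, hxs, hsO⟩ := hb.exists_subset_of_mem_open hx hO
  rcases hs with rfl | ⟨U, hU, rfl⟩
  · exact ⟨fun i => univ, fun i => isOpen_univ, fun i => mem_univ _, fun y _ => hsO (mem_univ y)⟩
  · exact ⟨U, hU, hxs, hsO⟩

abbrev W := Box (fun _ : ℕ => ℕ∞)

/-- x' extends x and is larger than G off x -/
def Ext (G : ℕ → ℕ) (x x' : W) : Prop :=
  ∀ k, (x k ≠ ⊤ → x' k = x k) ∧ (x k = ⊤ → (G k : ℕ∞) < x' k)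

lemma isOpen_ext (G : ℕ → ℕ) (x : W) : IsOpen {x' : W | Ext G x x'} := by
  classical
  have : {x' : W | Ext G x x'} =
      {x' : W | ∀ k, x' k ∈ (if x k = ⊤ then Ioi (G k : ℕ∞) else {x k} : Set ℕ∞)} := by
    ext x'
    constructor
    · intro h k
      by_cases hk : x k = ⊤
      · rw [if_pos hk]; exact (h k).2 hk
      · rw [if_neg hk]; exact (h k).1 hk
    · intro h k
      have := h k
      refine ⟨fun hk => ?_, fun hk => ?_⟩
      · rw [if_neg hk] at this; exact this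
      · rw [if_pos hk] at this; exact this
  rw [this]
  apply isOpen_box
  intro k
  by_cases hk : x k = ⊤
  · rw [if_pos hk]; exact isOpen_Ioi
  · rw [if_neg hk]; exact ENat.isOpen_singleton hk

lemma exists_ext {O : Set W} (hO : IsOpen O) {x : W} (hx : x ∈ O) :
    ∃ G : ℕ → ℕ, ∀ x', Ext G x x' → x' ∈ O := by
  obtain ⟨U, hU, hxU, hUO⟩ := box_basis hO hx
  have h : ∀ k, ∃ n : ℕ, x k = ⊤ → ∀ y : ℕ∞, (n : ℕ∞) < y → y ∈ U k := by
    intro k
    by_cases hk : x k = ⊤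
    · have h1 : U k ∈ 𝓝 (⊤ : ℕ∞) := by
        rw [← hk]
        exact (hU k).mem_nhds (hxU k)
      obtain ⟨a, ha, hau⟩ := nhds_top_basis.mem_iff.mp h1
      obtain ⟨n, rfl⟩ := ENat.ne_top_iff_exists.mp ha.ne
      exact ⟨n, fun _ y hy => hau hy⟩
    · exact ⟨0, fun h => absurd h hk⟩
  choose G hG using h
  refine ⟨G, fun x' hx' => hUO ?_⟩
  intro k
  by_cases hk : x k = ⊤
  · exact hG k hk _ ((hx' k).2 hk)
  · rw [(hx' k).1 hk]; exact hxU k

/-- graph of a point -/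
def gr (x : ℕ → ℕ∞) : Gr := {p | x p.1 = (p.2 : ℕ∞)}

lemma gr_func (x : ℕ → ℕ∞) : Func (gr x) := by
  intro k c c' h1 h2
  have h1' : x k = (c : ℕ∞) := h1
  have h2' : x k = (c' : ℕ∞) := h2
  exact_mod_cast h1'.symm.trans h2'

open Classical in
noncomputable def pt (X : Gr) : ℕ → ℕ∞ :=
  fun k => if h : ∃ c, (k, c) ∈ X then ((Classical.choose h : ℕ) : ℕ∞) else ⊤

lemma pt_of_mem {X : Gr} (hX : Func X) {k c : ℕ} (h : (k, c) ∈ X) : pt X k = (c : ℕ∞) := by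
  classical
  have hex : ∃ c, (k, c) ∈ X := ⟨c, h⟩
  unfold pt
  rw [dif_pos hex]
  have := hX k _ c (Classical.choose_spec hex) h
  rw [this]

lemma pt_of_notMem {X : Gr} {k : ℕ} (h : ∀ c, (k, c) ∉ X) : pt X k = ⊤ := by
  classical
  unfold pt
  rw [dif_neg]
  rintro ⟨c, hc⟩
  exact h c hc

lemma gr_pt {X : Gr} (hX : Func X) : gr (pt X) = X := by
  ext ⟨k, c⟩
  constructor
  · intro h
    have h' : pt X k = (c : ℕ∞) := h
    by_cases hex : ∃ c, (k, c) ∈ X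
    · obtain ⟨c', hc'⟩ := hex
      rw [pt_of_mem hX hc'] at h'
      have : c' = c := by exact_mod_cast h'
      rw [← this]; exact hc'
    · push Not at hex
      rw [pt_of_notMem hex] at h'
      exact absurd h'.symm (ENat.natCast_ne_top c)
  · intro h
    exact pt_of_mem hX h

lemma pt_ne_top {X : Gr} {k : ℕ} (h : pt X k ≠ ⊤) : ∃ c, (k, c) ∈ X := by
  by_contra hc
  push Not at hc
  exact h (pt_of_notMem hc)

def rest (x : W) : W := fun k => x (k + 1)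

def cons (a : ℕ∞) (x : ℕ → ℕ∞) : W := fun k => Nat.casesOn k a x

lemma rest_cons (a : ℕ∞) (x : ℕ → ℕ∞) : rest (cons a x) = x := rfl

lemma cons_zero (a : ℕ∞) (x : ℕ → ℕ∞) : cons a x 0 = a := rfl

/-- the key extension -/
lemma ext_cons {X Y : Gr} (hX : Func X) (hY : Func Y) (hXY : X ⊆ Y) {G : ℕ → ℕ}
    (h : ∀ k c, (k, c) ∈ Y → (∀ c', (k, c') ∉ X) → G (k + 1) < c) :
    Ext G (cons ⊤ (pt X)) (cons ⊤ (pt Y)) := by
  intro k
  cases k with
  | zero =>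
    refine ⟨fun _ => rfl, fun _ => ?_⟩
    exact ENat.natCast_lt_top _
  | succ k =>
    constructor
    · intro hk
      obtain ⟨c, hc⟩ := pt_ne_top hk
      show pt Y k = pt X k
      rw [pt_of_mem hX hc, pt_of_mem hY (hXY hc)]
    · intro hk
      have hk' : pt X k = ⊤ := hk
      show (G (k + 1) : ℕ∞) < pt Y k
      by_cases hex : ∃ c, (k, c) ∈ Y
      · obtain ⟨c, hc⟩ := hex
        rw [pt_of_mem hY hc]
        have h1 : ∀ c', (k, c') ∉ X := by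
          intro c' hc'
          rw [pt_of_mem hX hc'] at hk'
          exact ENat.natCast_ne_top _ hk'
        exact_mod_cast h k c hc h1
      · push Not at hex
        rw [pt_of_notMem hex]
        exact ENat.natCast_lt_top _

/-- abstract criterion -/
lemma not_co {T : Type} [TopologicalSpace T] (c : T → ℕ∞) (F : ℕ → Set T)
    (hO : ∀ n : ℕ, IsOpen {p | (n : ℕ∞) < c p ∧ p ∉ F n}) (hP : ∀ m : ℕ, IsOpen {p | c p = m})
    (hcov : ∀ p, c p = ⊤ → ∃ n, p ∉ F n) (hanti : ∀ m n, m ≤ n → F n ⊆ F m)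
    (hbad : ∀ N : T → Set T, (∀ p, IsOpen (N p) ∧ p ∈ N p) →
      ∃ q, c q = ⊤ ∧ ∀ n, ∃ p, c p = ⊤ ∧ p ∈ F n ∧ q ∈ N p)
    (hlow : ∀ p, c p = ⊤ → ∀ V : Set T, IsOpen V → p ∈ V → ∃ M : ℕ, ∃ p' ∈ V, c p' = M) :
    ¬ CountablyOrthocompact T := by
  intro hco
  let 𝒰 : Set (Set T) :=
    range (fun n : ℕ => {p | (n : ℕ∞) < c p ∧ p ∉ F n}) ∪ range (fun m : ℕ => {p | c p = m})
  obtain ⟨𝒱, hVo, hVc, hVr, hVi⟩ := hco 𝒰 ((countable_range _).union (countable_range _))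
    (by
      rintro U (⟨n, rfl⟩ | ⟨m, rfl⟩)
      · exact hO n
      · exact hP m)
    (by
      apply eq_univ_of_forall
      intro p
      by_cases hp : c p = ⊤
      · obtain ⟨n, hn⟩ := hcov p hp
        refine mem_sUnion.mpr ⟨_, Or.inl ⟨n, rfl⟩, ?_, hn⟩
        rw [hp]; exact ENat.natCast_lt_top n
      · obtain ⟨m, hm⟩ := ENat.ne_top_iff_exists.mp hp
        exact mem_sUnion.mpr ⟨_, Or.inr ⟨m, rfl⟩, hm.symm⟩)
  let N : T → Set T := fun p => ⋂₀ {V | V ∈ 𝒱 ∧ p ∈ V}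
  have hN : ∀ p, IsOpen (N p) ∧ p ∈ N p := by
    intro p
    exact ⟨hVi _ (fun V hV => hV.1), fun V hV => hV.2⟩
  obtain ⟨q, hq, hqn⟩ := hbad N hN
  obtain ⟨M, p', hp', hM⟩ := hlow q hq (N q) (hN q).1 (hN q).2
  obtain ⟨p, hp, hpF, hpN⟩ := hqn (M + 1)
  have hpV : p ∈ ⋃₀ 𝒱 := by rw [hVc]; exact mem_univ p
  obtain ⟨V, hV, hpV⟩ := mem_sUnion.mp hpV
  have hqV : q ∈ V := hpN V ⟨hV, hpV⟩
  have hNV : N q ⊆ V := fun x hx => hx V ⟨hV, hqV⟩
  obtain ⟨U, hU, hVU⟩ := hVr V hV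
  rcases hU with ⟨n, rfl⟩ | ⟨m, rfl⟩
  · have h1 := (hVU hpV).2
    have h2 : M + 1 < n := by
      by_contra h3
      exact h1 (hanti n (M + 1) (le_of_not_gt h3) hpF)
    have h4 := (hVU (hNV hp')).1
    rw [hM] at h4
    have : n < M := by exact_mod_cast h4
    omega
  · have h1 : c p = m := hVU hpV
    rw [hp] at h1
    exact ENat.natCast_ne_top m h1.symm

end Pool.Agent.BoxOrtho
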